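import Pool.Agent.Lib.KH.Blue
import Pool.Agent.Lib.SV.B_WEYL
import Pool.Agent.Lib.SV.B_SUB

/-! Project kh: the lemma of Weyl on a ball, for smooth test functions. -/

open scoped Classical Topology ContDiff ENNReal
open Set MeasureTheory Complex Metric Filter

noncomputable section

namespace Pool.Agent.Lib.KH

open Pool.Agent.Lib.SV (E)
open Pool.Agent.Lib.SV.WEYL (cv cv_diff cv_l1 cv_eq' bump)
open Pool.Agent.Lib.HS32

namespace WE0

variable {n : ℕ}

theorem euclid {F : E n → ℂ} (hF : Integrable F) (c : E n) {r : ℝ} (hr : 0 < r)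
    (h : ∀ (g : E n → ℝ) (K : Set (E n)), ContDiff ℝ ∞ g → IsCompact K → K ⊆ ball c (4 * r) →
      (∀ t ∉ K, g t = 0) → ∀ j, ∫ t, F t * ((fderiv ℝ g t (Pi.single j 1) : ℝ) +
        I * (fderiv ℝ g t (Pi.single j I) : ℝ)) = 0) :
    ∃ H : E n → ℂ, DifferentiableOn ℂ H (ball c r) ∧ ∀ᵐ x, x ∈ ball c r → H x = F x := by
  set g : ℕ → E n → ℝ := fun k => (bump r hr k).normed volume with hg
  have hro : ∀ k : ℕ, r / (k + 1) ≤ r := fun k =>
    div_le_self hr.le (le_add_of_nonneg_left (Nat.cast_nonneg k))
  have hd : ∀ k, DifferentiableOn ℂ (cv F (g k)) (ball c (2 * r)) := fun k x hx => by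
    refine (cv_diff hF (bump r hr k).contDiff_normed (bump r hr k).hasCompactSupport_normed x
      (h _ (closedBall x r) ?_ (isCompact_closedBall x r) ?_ ?_)).differentiableWithinAt
    · exact ((bump r hr k).contDiff_normed (n := ⊤)).comp (contDiff_const.sub contDiff_id)
    · intro t ht
      rw [mem_closedBall] at ht
      rw [mem_ball] at hx ⊢
      linarith [dist_triangle t x c]
    · intro t ht
      by_contra h0
      have h1 : x - t ∈ Function.support ((bump r hr k).normed volume) := h0
      rw [ContDiffBump.support_normed_eq, mem_ball_zero_iff, ← dist_eq_norm, dist_comm] at h1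
      exact ht (mem_closedBall.2 (h1.le.trans (hro k)))
  have hb0 : volume (ball (0 : E n) r) ≠ 0 := (measure_ball_pos _ _ hr).ne'
  have hb1 : volume (ball (0 : E n) r) ≠ ⊤ := measure_ball_lt_top.ne
  have hb : ∀ k, ∀ z ∈ ball c r, ‖cv F (g k) z‖ ≤
      (∫ t, ‖F t‖) / (volume (ball (0 : E n) r)).toReal := fun k z hz => by
    have h1 := SV.stSUB (E n) volume (cv F (g k)) z r 1 hr one_pos ((hd k).mono fun w hw => by
      rw [mem_ball] at hz hw ⊢
      linarith [dist_triangle w z c])
    simp only [Real.rpow_one] at h1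
    rw [Measure.addHaar_ball_center] at h1
    have h2 := (h1.trans (setLIntegral_le_lintegral _ _)).trans
      (cv_l1 hF (bump r hr k).integrable_normed (bump r hr k).nonneg_normed
        (bump r hr k).integral_normed)
    have h3 := ENNReal.toReal_mono ENNReal.ofReal_ne_top h2
    rw [ENNReal.toReal_mul, ENNReal.toReal_ofReal (norm_nonneg _),
      ENNReal.toReal_ofReal (integral_nonneg fun _ => norm_nonneg _)] at h3
    exact (le_div_iff₀ (ENNReal.toReal_pos hb0 hb1)).2 h3
  obtain ⟨s, hs, H, hH, hl⟩ := SV.H85.montel (f := fun k => cv F (g k)) (O := ball c r) isOpen_ball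
    (fun k => (hd k).mono (ball_subset_ball (by linarith)))
    (fun x hx => ⟨_, ball c r, isOpen_ball.mem_nhds hx, hb⟩)
  refine ⟨H, hH, ?_⟩
  have hae := ContDiffBump.ae_convolution_tendsto_right_of_locallyIntegrable (μ := volume)
    (φ := bump (n := n) r hr) (l := atTop) (K := 2) (g := F)
    (by
      have := (tendsto_one_div_add_atTop_nhds_zero_nat (𝕜 := ℝ)).const_mul r
      simpa [bump, div_eq_mul_inv] using this)
    (.of_forall fun k => by simp only [bump]; linarith) hF.locallyIntegrable
  filter_upwards [hae] with x hx hm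
  have h1 : Tendsto (fun k => cv F (g (s k)) x) atTop (𝓝 (F x)) := by
    refine (hx.comp hs.tendsto_atTop).congr fun k => ?_
    rw [cv_eq']
    rfl
  exact tendsto_nhds_unique (hl.tendsto_at hm) h1

end WE0

theorem bWE0 : St_WE0 := by
  intro n g c r hr hg h
  obtain ⟨F, hF, hae⟩ := WE0.euclid (hg.integrable_indicator measurableSet_ball) c hr
    fun u K hu hK hKs h0 j => by
      have hs : tsupport (fun t => (u t : ℂ)) ⊆ K := closure_minimal
        (fun t ht => by_contra fun hn => ht (ofReal_eq_zero.2 (h0 t hn))) hK.isClosed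
      have h2 := congrArg (fun a => 2 * starRingEnd ℂ a) (h (fun t => (u t : ℂ))
        (ofRealCLM.contDiff.comp hu) (hK.of_isClosed_subset (isClosed_tsupport _) hs)
        (hs.trans hKs) j)
      simp only [map_zero, mul_zero] at h2
      rw [← h2, ← integral_conj, ← integral_const_mul, ← integral_indicator measurableSet_ball]
      refine integral_congr_ae (.of_forall fun z => ?_)
      have e : ∀ v, fderiv ℝ (fun t => (u t : ℂ)) z v = (fderiv ℝ u z v : ℝ) := fun v =>
        DFunLike.congr_fun (ofRealCLM.hasFDerivAt.comp z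
          (hu.differentiable (by simp) z).hasFDerivAt).fderiv v
      by_cases hz : z ∈ ball c (4 * r)
      · simp only [indicator_of_mem hz, dz, e, star_def, map_mul, map_div₀, map_sub, conj_ofReal,
          conj_I, conj_conj, map_ofNat]
        ring
      · simp only [indicator_of_notMem hz, zero_mul]
  refine ⟨F, hF, hae.mono fun z hz hb => (hz hb).trans (indicator_of_mem ?_ _)⟩
  exact ball_subset_ball (by linarith) hb

end Pool.Agent.Lib.KH
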