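import Pool.Agent.Lib.EXH.Blue

/-! Project kh: the theorem of Hörmander on an open subset of a compact Kähler manifold.
Objects and blueprint. -/

open scoped Classical Topology ContDiff ComplexOrder Matrix ENNReal
open Set MeasureTheory Complex Metric Filter

set_option linter.unusedVariables false

noncomputable section

namespace Pool.Agent.Lib.KH

open Pool.Agent.Lib.SV (E)
open Pool.Agent.Lib.HS32 Pool.Agent.Lib.KP Pool.Agent.Lib.EXH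

section defs

variable {n : ℕ} (M : Mf n)

/-- The trivial bundle. -/
def tri : M.Co where
  c _ _ _ := 1
  hol _ _ _ _ _ _ _ := Eventually.of_forall fun _ => differentiableAt_const _
  ne _ _ _ _ _ _ _ := one_ne_zero
  mul _ _ _ _ _ _ _ _ _ _ := (mul_one 1).symm

/-- A property holds at the points of the charts that lie over `O`. -/
def OnK (O : Set M.X) (p : M.Ch → E n → Prop) : Prop := M.All fun e z => e.symm z ∈ O → p e z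

/-- Smooth on `O`. -/
def SmK {F : Type} [NormedAddCommGroup F] [NormedSpace ℝ F] (O : Set M.X) (f : M.X → F) : Prop :=
  OnK M O fun e z => ContDiffAt ℝ ∞ (f ∘ e.symm) z

/-- Holomorphic on `O`. -/
def HoK (O : Set M.X) (F : M.X → ℂ) : Prop := OnK M O fun e z => HolN (F ∘ e.symm) z

/-- The product of a function and a field. -/
def fm (κ : M.X → ℝ) (W : M.Fam (E n)) : M.Fam (E n) := fun e z => (κ (e.symm z) : ℂ) • W e z

/-- The product of a function and a section. -/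
def fs (κ : M.X → ℝ) (s : M.Fam ℂ) : M.Fam ℂ := fun e z => (κ (e.symm z) : ℂ) * s e z

/-- The `(0,1)` derivative on a vector. -/
def dbv (s : E n → ℂ) (z v : E n) : ℂ := ∑ i, star (v i) * dzb i s z

/-- The logarithm of `p` is almost plurisubharmonic. -/
structure Pol (H : M.Fam (Mat n)) (p : M.X → ℝ) : Prop where
  sm : M.Sm p
  nn : ∀ x, 0 ≤ p x
  cur : ∃ C : ℝ, ∀ d ∈ Ioc (0 : ℝ) 1, M.Le 0 (C • H + M.hs fun x => Real.log (p x + d))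

/-- The open set is approximately complete. -/
def Cmp (H : M.Fam (Mat n)) (O : Set M.X) : Prop := IsOpen O ∧ ∀ K, IsCompact K → K ⊆ O →
  ∃ A : ℝ, 0 ≤ A ∧ ∀ η > (0 : ℝ), ∃ (G : M.Fam (Mat n)) (κ : M.X → ℝ), M.Kae G ∧
    M.Le H ((2 : ℝ) • G) ∧ (OnK M K fun e z => (A • H e z - G e z).PosSemidef) ∧ M.Sm κ ∧
    (∀ x, 0 ≤ κ x ∧ κ x ≤ 1) ∧ (∀ x ∈ K, κ x = 1) ∧ tsupport κ ⊆ O ∧ ∀ x, M.gr G κ κ x ≤ η ^ 2

/-- A smooth vector field that vanishes outside `K`. -/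
structure Tf (K : Set M.X) (V : M.Fam (E n)) : Prop where
  vec : M.Vec V
  supp : M.All fun e z => e.symm z ∉ K → V e z = 0

/-- The divergence. -/
def dg (H : M.Fam (Mat n)) (V : M.Fam (E n)) : M.X → ℂ := M.ev (wd M H 0 V)

/-- The integral over `O`. -/
def Jo (H : M.Fam (Mat n)) (O : Set M.X) (g : M.X → ℝ) : ℝ≥0∞ :=
  ∫⁻ x in O, ENNReal.ofReal (g x) ∂M.mu H

/-- The data of the equation. -/
structure Dat (H : M.Fam (Mat n)) (O : Set M.X) (ε : ℝ) (f β : M.X → ℝ) (Γ : M.X → ℂ) : Prop where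
  e0 : 0 ≤ ε
  sf : SmK M O f
  sg : SmK M O Γ
  mb : AEMeasurable β ((M.mu H).restrict O)
  b0 : ∀ x ∈ O, 0 ≤ β x
  pos : OnK M O fun e z => (M.hs f e z + M.ric H e z + ε • H e z).PosSemidef
  dom : OnK M O fun e z => ∀ v, normSq (dbv (Γ ∘ e.symm) z v) ≤
    β (e.symm z) * nq (M.hs f e z + M.ric H e z + ε • H e z) v
  fin : Jo M H O (fun x => normSq (Γ x) * Real.exp (-f x)) ≠ ⊤

/-- Bounded above, locally uniformly on `O`. -/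
def Lb (O : Set M.X) (f : ℕ → M.X → ℝ) : Prop := ∀ x ∈ O, ∃ C, ∀ᶠ y in 𝓝 x, ∀ i, f i y ≤ C

/-- The data for a plurisubharmonic weight. -/
structure Da (O : Set M.X) (ph β : M.X → ℝ) (Γ : M.X → ℂ) : Prop where
  sf : SmK M O ph
  sg : SmK M O Γ
  b0 : ∀ x ∈ O, 0 ≤ β x
  pos : OnK M O fun e z => (M.hs ph e z).PosSemidef
  dom : OnK M O fun e z => ∀ v, normSq (dbv (Γ ∘ e.symm) z v) ≤ β (e.symm z) * nq (M.hs ph e z) v

/-- The theorem of Hörmander holds on `O` for the measure `ν` and square integrable data. -/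
def HqB (O : Set M.X) (ν : Measure M.X) : Prop := ∀ (ph β : M.X → ℝ) (Γ : M.X → ℂ),
  AEMeasurable β ν → Da M O ph β Γ →
  ∫⁻ x, ENNReal.ofReal (normSq (Γ x) * Real.exp (-ph x)) ∂ν ≠ ⊤ → ∃ F, HoK M O F ∧
    ∫⁻ x, ENNReal.ofReal (normSq (Γ x - F x) * Real.exp (-ph x)) ∂ν ≤
      ∫⁻ x, ENNReal.ofReal (β x * Real.exp (-ph x)) ∂ν

/-- A sequence of almost positive weights. -/
structure Wq (H : M.Fam (Mat n)) (O : Set M.X) (ε : ℕ → ℝ) (ρ : ℕ → M.X → ℝ) : Prop where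
  e0 : ∀ i, 0 ≤ ε i
  lim : Tendsto ε atTop (𝓝 0)
  sm : ∀ i, SmK M O (ρ i)
  pos : ∀ i, OnK M O fun e z => (M.hs (ρ i) e z + M.ric H e z + ε i • H e z).PosSemidef

/-- The limit density. -/
def lden {Y : Type} (ρ : ℕ → Y → ℝ) (x : Y) : ℝ≥0∞ :=
  liminf (fun i => ENNReal.ofReal (Real.exp (-ρ i x))) atTop

end defs

/-! ### Rows -/

/-- The gradient term of a closed field times a function. -/
def St_QLN : Prop := ∀ (n : ℕ) (M : Mf n) (G : M.Fam (Mat n)) (L : M.Co) (φ : M.Fam ℝ)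
  (v : M.Fam (E n)) (κ : M.X → ℝ), M.Kae G → VeC M L v → ClV M G v → M.Sm κ →
  ∀ x, -(M.gr G κ κ x * tv M G φ v x) ≤ qv M φ (fm M κ v) x

/-- The rules of Leibniz. -/
def St_LEI : Prop := ∀ (n : ℕ) (M : Mf n) (G : M.Fam (Mat n)) (L : M.Co) (φ : M.Fam ℝ)
  (v : M.Fam (E n)) (s : M.Fam ℂ) (κ : M.X → ℝ), M.Met G → VeC M L v → M.SecC L s → M.Sm κ →
  VeC M L (fm M κ v) ∧ M.SecC L (fs M κ s) ∧ ∀ x, ∃ a : ℂ,
    normSq a ≤ M.gr G κ κ x * nq (M.ev G x) (M.ev v x) ∧ (x ∉ tsupport κ → a = 0) ∧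
    M.ev (fm M κ v) x = (κ x : ℂ) • M.ev v x ∧ M.ev (fs M κ s) x = κ x * M.ev s x ∧
    M.ev (wd M G φ (fm M κ v)) x = κ x * M.ev (wd M G φ v) x + a ∧
    vp M G φ v (du M G (fs M κ s)) x = (star (dbv (s (M.ch x)) (M.ch x x) (M.ev (fm M κ v) x)) +
      star (M.ev s x) * a) * (Real.exp (-M.ev φ x) : ℝ)

/-- The estimate on the compact manifold. -/
def St_COR : Prop := ∀ (n : ℕ) (M : Mf n) [M.Cpt] (G : M.Fam (Mat n)) (L : M.Co) (φ : M.Fam ℝ)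
  (W : M.Fam (E n)) (s : M.Fam ℂ) (κ b c : M.X → ℝ) (ε η t : ℝ), M.Kae G → M.WtC L φ →
  VeC M L W → M.SecC L s → M.Sm κ → (∀ x, 0 ≤ κ x ∧ κ x ≤ 1) → 0 ≤ ε → 0 < η → η ≤ 1 → 0 < t →
  (∀ x, M.gr G κ κ x ≤ η ^ 2) → (∀ x, M.ev (wd M G φ W) x ≠ 0 → κ x = 1) →
  Integrable b (M.mu G) → Integrable c (M.mu G) → (∀ x, 0 ≤ b x ∧ 0 ≤ c x) →
  (∀ x ∈ tsupport κ, M.nrC φ s x ≤ c x) →
  (OnK M (tsupport κ) fun e z => (M.hw φ e z + M.ric G e z + ε • G e z).PosSemidef ∧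
    ∀ v, normSq (dbv (s e) z v) * Real.exp (-φ e z) ≤
      b (e.symm z) * nq (M.hw φ e z + M.ric G e z + ε • G e z) v) →
  ‖∫ x, spC M φ (wd M G φ W) s x ∂M.mu G‖ ≤
    (t * ∫ x, b x ∂M.mu G + ((1 + η) * ∫ x, M.nrC φ (wd M G φ W) x ∂M.mu G +
      (ε + 3 * η) * ∫ x, tv M G φ W x ∂M.mu G) / t) / 2 +
    η * (∫ x, c x ∂M.mu G + ∫ x, tv M G φ W x ∂M.mu G) / 2

/-- The complement of the zeros is approximately complete. -/
def St_MET : Prop := ∀ (n : ℕ) (M : Mf n) [M.Cpt] (H : M.Fam (Mat n)) (p : M.X → ℝ), M.Kae H →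
  Pol M H p → Cmp M H {x | p x ≠ 0}

/-- Functions on the open set; test fields. -/
def St_KIT : Prop := ∀ (n : ℕ) (M : Mf n) [M.Cpt] (H : M.Fam (Mat n)) (O : Set M.X), M.Met H →
  IsOpen O →
  (∀ (F : Type) [NormedAddCommGroup F] [NormedSpace ℝ F] (f : M.X → F), SmK M O f →
    ContinuousOn f O ∧ ∀ K, IsCompact K → K ⊆ O → ∃ g, M.Sm g ∧ ∀ᶠ x in 𝓝ˢ K, g x = f x) ∧
  (∀ F, HoK M O F → SmK M O F) ∧
  (∀ K V, IsCompact K → Tf M K V → M.Sm (dg M H V) ∧ (∀ x ∉ K, dg M H V x = 0) ∧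
    M.All fun e z => dg M H V (e.symm z) * (H e z).det = dv (fun w => (H e w).det • V e w) z) ∧
  (∀ K K' V V' (c : ℂ), Tf M K V → Tf M K' V' → Tf M (K ∪ K') (V + V') ∧ Tf M K (c • V) ∧
    dg M H (V + V') = dg M H V + dg M H V' ∧ dg M H (c • V) = c • dg M H V) ∧
  (∀ f, Lb M O f → ∀ K, IsCompact K → K ⊆ O → ∃ C, ∀ x ∈ K, ∀ i, f i x ≤ C) ∧
  ∀ f g : M.X → ℝ, SmK M O f → SmK M O g → SmK M O (fun x => f x + g x) ∧
    OnK M O fun e z => M.hs (fun x => f x + g x) e z = M.hs f e z + M.hs g e z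

/-- The change of the metric and of the weight. -/
def St_CHG : Prop := ∀ (n : ℕ) (M : Mf n) [M.Cpt] (H G : M.Fam (Mat n)) (f : M.X → ℝ)
  (V : M.Fam (E n)) (Γ : M.X → ℂ), M.Met H → M.Met G → M.Sm f → M.Vec V → M.Sm Γ →
  ∃ (φ : M.Fam ℝ) (W : M.Fam (E n)) (s : M.Fam ℂ), M.WtC (tri M) φ ∧ VeC M (tri M) W ∧
    M.SecC (tri M) s ∧ (∀ e, s e = Γ ∘ e.symm) ∧
    (M.All fun e z => M.hw φ e z + M.ric G e z = M.hs f e z + M.ric H e z ∧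
      Real.exp (-φ e z) * M.dq H G (e.symm z) = Real.exp (-f (e.symm z))) ∧
    ∀ x, M.ev (wd M G φ W) x = Real.exp (f x) * dg M H V x ∧
      M.dq H G x * spC M φ (wd M G φ W) s x = dg M H V x * star (Γ x) ∧
      M.dq H G x * M.nrC φ (wd M G φ W) x = normSq (dg M H V x) * Real.exp (f x) ∧
      M.dq H G x * M.nrC φ s x = normSq (Γ x) * Real.exp (-f x) ∧
      M.dq H G x * tv M G φ W x = nq (M.ev G x) (M.ev V x) * Real.exp (f x)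

/-- The dual estimate for one weight. -/
def St_DUA : Prop := ∀ (n : ℕ) (M : Mf n) [M.Cpt] (H : M.Fam (Mat n)) (O K : Set M.X), M.Kae H →
  Cmp M H O → IsCompact K → K ⊆ O → ∃ A : ℝ, 0 ≤ A ∧ ∀ (ε : ℝ) (f β : M.X → ℝ) (Γ : M.X → ℂ)
    (V : M.Fam (E n)), Dat M H O ε f β Γ → Tf M K V →
    Jo M H O (fun x => β x * Real.exp (-f x)) ≠ ⊤ →
    normSq (∫ x, dg M H V x * star (Γ x) ∂M.mu H) ≤
      (Jo M H O fun x => β x * Real.exp (-f x)).toReal *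
        (∫ x, normSq (dg M H V x) * Real.exp (f x) ∂M.mu H +
          ε * A * ∫ x, nq (M.ev H x) (M.ev V x) * Real.exp (f x) ∂M.mu H)

/-- The dual estimate for the limit. -/
def St_LIM : Prop := ∀ (n : ℕ) (M : Mf n) [M.Cpt] (H : M.Fam (Mat n)) (O K : Set M.X)
  (ε : ℕ → ℝ) (f β : ℕ → M.X → ℝ) (Γ : M.X → ℂ) (V : M.Fam (E n)), M.Kae H → Cmp M H O →
  IsCompact K → K ⊆ O → (∀ i, Dat M H O (ε i) (f i) (β i) Γ) → Tendsto ε atTop (𝓝 0) →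
  Lb M O f → Tf M K V →
  liminf (fun i => Jo M H O fun x => β i x * Real.exp (-f i x)) atTop ≠ ⊤ →
  ENNReal.ofReal (normSq (∫ x in O, dg M H V x * star (Γ x) ∂M.mu H)) ≤
    liminf (fun i => Jo M H O fun x => β i x * Real.exp (-f i x)) atTop *
      ∫⁻ x in O, ENNReal.ofReal (normSq (dg M H V x)) * (lden f x)⁻¹ ∂M.mu H

/-- The theorem of Riesz with a weight. -/
def St_RIE : Prop := ∀ (Y S : Type) [MeasurableSpace Y] [AddCommGroup S] [Module ℂ S]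
  (μ : Measure Y) (a : Y → ℝ≥0∞) (T : S →ₗ[ℂ] Y → ℂ) (l : S →ₗ[ℂ] ℂ) (B : ℝ≥0∞), B ≠ ⊤ →
  AEMeasurable a μ → (∀ᵐ y ∂μ, a y ≠ 0) → (∀ s, AEMeasurable (T s) μ ∧
    ∫⁻ y, ENNReal.ofReal (normSq (T s y)) * (a y)⁻¹ ∂μ ≠ ⊤ ∧ ENNReal.ofReal (normSq (l s)) ≤
      B * ∫⁻ y, ENNReal.ofReal (normSq (T s y)) * (a y)⁻¹ ∂μ) →
  ∃ h : Y → ℂ, AEMeasurable h μ ∧ ∫⁻ y, ENNReal.ofReal (normSq (h y)) * a y ∂μ ≤ B ∧
    ∀ s, Integrable (fun y => T s y * star (h y)) μ ∧ l s = ∫ y, T s y * star (h y) ∂μ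

/-- The lemma of Weyl on a ball. -/
def St_WE0 : Prop := ∀ (n : ℕ) (g : E n → ℂ) (c : E n) (r : ℝ), 0 < r →
  IntegrableOn g (ball c (4 * r)) →
  (∀ ψ : E n → ℂ, ContDiff ℝ ∞ ψ → HasCompactSupport ψ → tsupport ψ ⊆ ball c (4 * r) →
    ∀ j, ∫ z in ball c (4 * r), dz j ψ z * star (g z) = 0) →
  ∃ F : E n → ℂ, DifferentiableOn ℂ F (ball c r) ∧ ∀ᵐ z, z ∈ ball c r → F z = g z

/-- The lemma of Weyl on the manifold. -/
def St_WEY : Prop := ∀ (n : ℕ) (M : Mf n) [M.Cpt] (H : M.Fam (Mat n)) (O : Set M.X)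
  (g : M.X → ℂ), M.Met H → IsOpen O → LocallyIntegrableOn g O (M.mu H) →
  (∀ K V, IsCompact K → K ⊆ O → Tf M K V → ∫ x in O, dg M H V x * star (g x) ∂M.mu H = 0) →
  ∃ F, HoK M O F ∧ ∀ᵐ x ∂(M.mu H).restrict O, F x = g x

/-- The theorem. -/
def St_KH : Prop := ∀ (n : ℕ) (M : Mf n) [M.Cpt] (H : M.Fam (Mat n)) (O : Set M.X)
  (ε : ℕ → ℝ) (f β : ℕ → M.X → ℝ) (Γ : M.X → ℂ), M.Kae H → Cmp M H O →
  (∀ i, Dat M H O (ε i) (f i) (β i) Γ) → Tendsto ε atTop (𝓝 0) → Lb M O f →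
  ∃ F, HoK M O F ∧ ∫⁻ x in O, ENNReal.ofReal (normSq (Γ x - F x)) * lden f x ∂M.mu H ≤
    liminf (fun i => Jo M H O fun x => β i x * Real.exp (-f i x)) atTop

/-- A decreasing sequence of weights. -/
def St_KHM : Prop := ∀ (n : ℕ) (M : Mf n) [M.Cpt] (H : M.Fam (Mat n)) (O : Set M.X)
  (ε : ℕ → ℝ) (ρ : ℕ → M.X → ℝ), M.Kae H → Cmp M H O → Wq M H O ε ρ →
  (∀ i, ∀ x ∈ O, ρ (i + 1) x ≤ ρ i x) → HqB M O (((M.mu H).restrict O).withDensity (lden ρ))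

/-- The regularised maximum of finitely many weights. -/
def St_MAX : Prop := ∀ (n : ℕ) (M : Mf n) (O : Set M.X) (T : M.Fam (Mat n)) (m : ℕ)
  (ρ : Fin (m + 1) → M.X → ℝ) (η : ℝ), IsOpen O → 0 < η → (∀ i, SmK M O (ρ i) ∧
    OnK M O fun e z => (M.hs (ρ i) e z + T e z).PosSemidef) →
  ∃ R, SmK M O R ∧ (OnK M O fun e z => (M.hs R e z + T e z).PosSemidef) ∧
    ∀ x, (∀ i, ρ i x ≤ R x) ∧ ∃ i, R x ≤ ρ i x + η

/-- An arbitrary sequence of weights. -/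
def St_KHL : Prop := ∀ (n : ℕ) (M : Mf n) [M.Cpt] (H : M.Fam (Mat n)) (O : Set M.X)
  (ε : ℕ → ℝ) (ρ : ℕ → M.X → ℝ) (ph β : M.X → ℝ) (Γ : M.X → ℂ), M.Kae H → Cmp M H O →
  Wq M H O ε ρ → Lb M O ρ → AEMeasurable β ((M.mu H).restrict O) → Da M O ph β Γ →
  (∀ i, Jo M H O (fun x => β x * Real.exp (-(ph x + ρ i x))) ≠ ⊤ ∧
    Jo M H O (fun x => normSq (Γ x) * Real.exp (-(ph x + ρ i x))) ≠ ⊤) →
  ∃ F, HoK M O F ∧
    ∫⁻ x in O, ENNReal.ofReal (normSq (Γ x - F x) * Real.exp (-ph x)) * lden ρ x ∂M.mu H ≤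
      ∫⁻ x in O, ENNReal.ofReal (β x * Real.exp (-ph x)) * lden ρ x ∂M.mu H

end Pool.Agent.Lib.KH
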