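import Pool.Agent.Lib.KH.Blue
import Pool.Agent.Lib.EXH.B_BOC

/-! Project kh, row KIT: functions on the open set and test fields. -/

open scoped Classical Topology ContDiff ComplexOrder Matrix ENNReal
open Set MeasureTheory Complex Metric Filter

set_option linter.unusedVariables false

noncomputable section

namespace Pool.Agent.Lib.KH

open Pool.Agent.Lib.SV (E)
open Pool.Agent.Lib.HS32 Pool.Agent.Lib.KP Pool.Agent.Lib.EXH
open Pool.Agent.Lib.KP.T60 (phC)

namespace KIT

variable {n : ℕ} {M : Mf n} {H : M.Fam (Mat n)} {O K : Set M.X} {V V' : M.Fam (E n)}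

theorem cont {F : Type} [NormedAddCommGroup F] [NormedSpace ℝ F] {f : M.X → F} (hf : SmK M O f) :
    ContinuousOn f O := fun x hx => by
  have h := (hf _ (Mf.ch_mem x) _ (Mf.ch_tgt x) (by rwa [Mf.ch_symm])).continuousAt
  refine ((h.comp ((M.ch x).continuousAt (Mf.mem_ch x))).congr ?_).continuousWithinAt
  filter_upwards [(M.ch x).open_source.mem_nhds (Mf.mem_ch x)] with y hy
  exact congrArg f ((M.ch x).left_inv hy)

theorem ext [M.Cpt] {F : Type} [NormedAddCommGroup F] [NormedSpace ℝ F] {f : M.X → F}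
    (hO : IsOpen O) (hf : SmK M O f) (hK : IsCompact K) (h : K ⊆ O) :
    ∃ g, M.Sm g ∧ ∀ᶠ x in 𝓝ˢ K, g x = f x := by
  obtain ⟨χ, c1, -, c2, c3⟩ := (mCOV n M).2.2.2.2.2 K O hK.isClosed hO h
  refine ⟨fun x => χ x • f x, fun e he z hz => ?_, c2.mono fun x hx => by simp only [hx, one_smul]⟩
  by_cases k : e.symm z ∈ O
  · exact (c1 e he z hz).smul (hf e he z hz k)
  · refine (contDiffAt_const (c := (0 : F))).congr_of_eventuallyEq ?_
    filter_upwards [(e.continuousAt_symm hz).eventually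
      (notMem_tsupport_iff_eventuallyEq.1 fun h => k (c3 h))] with w hw
    exact smul_eq_zero_of_left hw _

theorem sec (hH : M.Met H) (hV : M.Vec V) : M.SecC (tri M) (wd M H 0 V) :=
  VeC.wd_sec (L := tri M) ⟨hV.sm, fun e he e' he' x hx hx' =>
    (hV.cmp e he e' he' x hx hx').trans (one_smul ℂ _).symm⟩ hH
    ⟨fun _ _ _ _ => contDiffAt_const, fun _ _ _ _ _ _ _ => by simp [tri]⟩

theorem inv (hH : M.Met H) (hV : M.Vec V) : M.Inv (wd M H 0 V) := fun e he e' he' x hx hx' =>
  ((sec hH hV).cmp e he e' he' x hx hx').trans (mul_one _)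

theorem loc (hH : M.Met H) (hV : M.Vec V) : M.All fun e z =>
    wd M H 0 V e z * (H e z).det = dv (fun w => (H e w).det • V e w) z := fun e he z hz => by
  obtain ⟨c1, -, c3, -, -, c6⟩ := mCOF n (H e) z (hH.sm e he z hz)
  obtain ⟨-, -, c7⟩ := c6 (hH.pos.ev he hz)
  have d0 : (H e z).det ≠ 0 := (hH.pos e he z hz).det_pos.ne'
  simp only [wd, HS68.wdv, dv, Finset.sum_mul]
  refine Finset.sum_congr rfl fun k _ => ?_
  have e1 : dz k (fun w => (phC M H 0 e w : ℂ)) z = -(gam (H e) k z).trace := by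
    rw [← c7 k, ← dz_neg]
    exact dz_congr (Eventually.of_forall fun w => by simp [phC, ld])
  have e2 : (gam (H e) k z).trace * (H e z).det = dz k (fun w => (H e w).det) z := by
    rw [(c3 k).1, gam, Matrix.inv_def, Matrix.smul_mul, Matrix.trace_smul, Ring.inverse_eq_inv',
      smul_eq_mul]
    field_simp
  have e3 := dz_mul (j := k) (cd_diff c1) (cd_diff (contDiffAt_pi.1 (hV.sm e he z hz) k))
  simp only [Pi.smul_apply, smul_eq_mul]
  rw [e3, e1, ← e2]
  ring

theorem zero [M.Cpt] (hK : IsCompact K) (hV : Tf M K V) {x : M.X} (hx : x ∉ K) :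
    dg M H V x = 0 := by
  have e : ∀ᶠ w in 𝓝 (M.ch x x), V (M.ch x) w = 0 := by
    filter_upwards [(M.ch x).open_target.mem_nhds (Mf.ch_tgt x),
      ((M.ch x).continuousAt_symm (Mf.ch_tgt x)).eventually
        (hK.isClosed.isOpen_compl.mem_nhds (by rwa [Mf.ch_symm]))] with w h1 h2
    exact hV.supp _ (Mf.ch_mem x) w h1 h2
  rw [dg, Mf.ev, wd, HS68.wdv]
  refine Finset.sum_eq_zero fun k _ => ?_
  rw [dz_congr (g := fun _ => 0) (e.mono fun w hw => congrFun hw k), e.self_of_nhds]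
  simp

theorem lin (hV : M.Vec V) (hV' : M.Vec V') (c : ℂ) :
    dg M H (V + V') = dg M H V + dg M H V' ∧ dg M H (c • V) = c • dg M H V := by
  have d := fun x k => cd_diff (contDiffAt_pi.1 (hV.sm _ (Mf.ch_mem x) _ (Mf.ch_tgt x)) k)
  have d' := fun x k => cd_diff (contDiffAt_pi.1 (hV'.sm _ (Mf.ch_mem x) _ (Mf.ch_tgt x)) k)
  constructor <;> funext x
  · simp only [dg, Mf.ev, wd, HS68.wdv, Pi.add_apply, dz_add (d x _) (d' x _),
      ← Finset.sum_add_distrib]
    exact Finset.sum_congr rfl fun k _ => by ring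
  · simp only [dg, Mf.ev, wd, HS68.wdv, Pi.smul_apply, smul_eq_mul, dz_const_mul c (d x _),
      Finset.mul_sum]
    exact Finset.sum_congr rfl fun k _ => by ring

theorem lb {f : ℕ → M.X → ℝ} (hf : Lb M O f) (hK : IsCompact K) (h : K ⊆ O) :
    ∃ C, ∀ x ∈ K, ∀ i, f i x ≤ C :=
  hK.induction_on (p := fun S => ∃ C, ∀ x ∈ S, ∀ i, f i x ≤ C) ⟨0, fun _ h => h.elim⟩
    (fun S S' hS ⟨C, hC⟩ => ⟨C, fun x hx => hC x (hS hx)⟩)
    (fun S S' ⟨C, hC⟩ ⟨C', hC'⟩ => ⟨max C C', fun x hx i => hx.elim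
      (fun k => le_max_of_le_left (hC x k i)) fun k => le_max_of_le_right (hC' x k i)⟩)
    fun x hx => let ⟨C, hC⟩ := hf x (h hx)
      ⟨_, nhdsWithin_le_nhds hC, C, fun _ k => k⟩

end KIT

open KIT in
theorem bKIT : St_KIT := by
  intro n M _ H O hH hO
  refine ⟨fun F _ _ f hf => ⟨cont hf, fun K hK h => ext hO hf hK h⟩,
    fun F hF e he z hz k => ((mHOL n _ z).2.2 (hF e he z hz k)).1,
    fun K V hK hV => ⟨(inv hH hV.vec).sm (sec hH hV.vec).sm, fun x hx => zero hK hV hx,
      fun e he z hz => ?_⟩,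
    fun K K' V V' c h h' => ⟨⟨⟨fun e he z hz => (h.vec.sm e he z hz).add (h'.vec.sm e he z hz),
      fun e he e' he' x hx hx' => ?_⟩, fun e he z hz k => ?_⟩,
      ⟨⟨fun e he z hz => (h.vec.sm e he z hz).const_smul c, fun e he e' he' x hx hx' => ?_⟩,
        fun e he z hz k => ?_⟩, lin h.vec h'.vec c⟩,
    fun f hf K hK h => lb hf hK h, fun f g hf hg => ⟨fun e he z hz k =>
      (hf e he z hz k).add (hg e he z hz k), fun e he z hz k => ?_⟩⟩
  · exact (congrArg (· * (H e z).det) ((inv hH hV.vec).rep e he z hz)).trans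
      (loc hH hV.vec e he z hz)
  · simp only [Pi.add_apply, Matrix.mulVec_add, h.vec.cmp e he e' he' x hx hx',
      h'.vec.cmp e he e' he' x hx hx']
  · simp only [Pi.add_apply, h.supp e he z hz fun j => k (Or.inl j),
      h'.supp e he z hz fun j => k (Or.inr j), add_zero]
  · simp only [Pi.smul_apply, Matrix.mulVec_smul, h.vec.cmp e he e' he' x hx hx']
  · simp only [Pi.smul_apply, h.supp e he z hz k, smul_zero]
  · refine Eq.trans (hess_congr (Eventually.of_forall fun w => ofReal_add _ _)) (hess_add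
      (ofRealCLM.contDiff.contDiffAt.comp z (hf e he z hz k))
      (ofRealCLM.contDiff.contDiffAt.comp z (hg e he z hz k)))

end Pool.Agent.Lib.KH
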