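import Pool.Agent.Lib.KH.Blue
import Pool.Agent.Lib.EXH.B_BOC
import Pool.Agent.Lib.EXH.B_NEAR

/-! Project kh: the estimate on the compact manifold. -/

open scoped Classical Topology ContDiff ComplexOrder Matrix ENNReal
open Set MeasureTheory Complex Metric Filter

noncomputable section

namespace Pool.Agent.Lib.KH

open Pool.Agent.Lib.SV (E)
open Pool.Agent.Lib.HS32 Pool.Agent.Lib.KP Pool.Agent.Lib.EXH
open Pool.Agent.Lib.HS68 (dual)

namespace COR

theorem amg {x p q : ℝ} (p0 : 0 ≤ p) (q0 : 0 ≤ q) (h : x ^ 2 ≤ p * q) : x ≤ (p + q) / 2 :=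
  (abs_le_of_sq_le_sq' (by nlinarith [sq_nonneg (p - q)]) (by positivity)).2

theorem nq0 {n : ℕ} {T : Mat n} (h : T.PosSemidef) (v : E n) : 0 ≤ nq T v :=
  (Complex.le_def.1 (h.dotProduct_mulVec_nonneg v)).1

theorem nq1 {n : ℕ} (S T : Mat n) (ε : ℝ) (v : E n) : nq (S + ε • T) v = nq S v + ε * nq T v := by
  simp only [nq, Matrix.add_mulVec, Matrix.smul_mulVec, dotProduct_add, dotProduct_smul, add_re,
    real_smul, re_ofReal_mul]

theorem nq2 {n : ℕ} (T : Mat n) (r : ℝ) (v : E n) : nq T ((r : ℂ) • v) = r ^ 2 * nq T v := by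
  simp only [nq, Matrix.mulVec_smul, star_smul, smul_dotProduct, dotProduct_smul, smul_eq_mul,
    RCLike.star_def, conj_ofReal, re_ofReal_mul]
  ring

theorem sum {k η y : ℝ} {u a : ℂ} (k0 : 0 ≤ k) (k1 : k ≤ 1) (η0 : 0 < η) (y0 : 0 ≤ y)
    (h : normSq a ≤ η ^ 2 * y) :
    normSq (k * u + a) ≤ (1 + η) * normSq u + (η ^ 2 + η) * y := by
  have h1 : ‖k * u + a‖ ≤ ‖u‖ + ‖a‖ := (norm_add_le _ _).trans (add_le_add_left (by
    rw [norm_mul, norm_real, Real.norm_of_nonneg k0]
    exact mul_le_of_le_one_left (norm_nonneg _) k1) _)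
  have h2 := pow_le_pow_left₀ (norm_nonneg _) h1 2
  simp only [normSq_eq_norm_sq] at h ⊢
  have h3 : ‖u‖ * ‖a‖ ≤ (η * ‖u‖ ^ 2 + η * y) / 2 := amg (by positivity) (by positivity) (by
    rw [mul_pow]
    exact (mul_le_mul_of_nonneg_left h (sq_nonneg _)).trans_eq (by ring))
  nlinarith

variable {n : ℕ} {M : Mf n} [M.Cpt] {G : M.Fam (Mat n)} {L : M.Co} {φ : M.Fam ℝ}
  {W : M.Fam (E n)}

/-- The closed representative. -/
theorem rep (hG : M.Kae G) (hw : M.WtC L φ) (hW : VeC M L W) : ∃ v, VeC M L v ∧ ClV M G v ∧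
    (∀ x, M.ev (wd M G φ v) x = M.ev (wd M G φ W) x) ∧
    ∫ x, tv M G φ v x ∂M.mu G ≤ ∫ x, tv M G φ W x ∂M.mu G := by
  have hm := hG.toMet
  have hi := (mMU n M G hm).2.2.2.2.1
  obtain ⟨s, s1, s2⟩ := NEAR.exact st_ALG st_WDV hG hw hW
  have hv := vec_du hm s1
  have hu := hW.sub hv
  have t1 := Mf.secC_zero.sub s1
  have t2 := vec_du hm t1
  refine ⟨_, hv, clv_du hm s1, fun x => ?_, ?_⟩
  · have h1 := (NEAR.wd_sub (H := G) (φ := φ) hW hv).ch x
    exact (sub_eq_zero.1 (h1.symm.trans (s2.ch x))).symm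
  have ng : ∀ x, M.ev (du M G (0 - s)) x = ((-1 : ℝ) : ℂ) • M.ev (du M G s) x := fun x => by
    have h1 := (du_sub (H := G) Mf.secC_zero s1).ch x
    have h2 : du M G 0 (M.ch x) (M.ch x x) = 0 := by
      have : (fun i => dzb i ((0 : M.Fam ℂ) (M.ch x)) (M.ch x x)) = 0 :=
        funext fun i => dzb_const (0 : ℂ)
      simp only [du, dual, this, Matrix.mulVec_zero]
    show du M G (0 - s) _ _ = _ • du M G s _ _
    rw [h1, h2, zero_sub, ofReal_neg, ofReal_one, neg_smul, one_smul]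
  obtain ⟨-, c1, c2, -, -, c3, -⟩ := st_SC n M G L φ _ _ hm hw hu t2
  obtain ⟨-, -, c4, -⟩ := st_SC n M G L φ _ _ hm hw hv hv
  obtain ⟨-, -, c5, -⟩ := st_SC n M G L φ _ _ hm hw hW hW
  have e2 := integral_re (hi _ _ c1)
  rw [NEAR.orth st_WDV hm hw hu s2 t1, map_zero] at e2
  have e3 : ∫ x, (vp M G φ (W - du M G s) (du M G (0 - s)) x).re ∂M.mu G = 0 := e2
  have i4 : Integrable (fun x => 2 * (vp M G φ (W - du M G s) (du M G (0 - s)) x).re) (M.mu G) :=
    (hi _ _ c1).re.const_mul 2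
  have i5 := hi _ _ (c5 G hm.toTen).2
  have h := integral_mono (hi _ _ (c4 G hm.toTen).2) (i5.add i4) fun x => by
    have a1 := (c3 x).2
    have a2 : tv M G φ (W - du M G s - du M G (0 - s)) x = tv M G φ W x := by
      have := ng x
      simp only [Mf.ev] at this
      simp only [tv, Mf.ev, Pi.sub_apply, this, ofReal_neg, ofReal_one, neg_smul, one_smul,
        sub_neg_eq_add, sub_add_cancel]
    have a3 : tv M G φ (du M G (0 - s)) x = tv M G φ (du M G s) x := by
      simp only [tv, ng, nq2, neg_one_sq, one_mul]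
    simp only [Pi.add_apply]
    linarith [(c3 x).1]
  rwa [integral_add' i5 i4, integral_const_mul, e3, mul_zero, add_zero] at h

end COR

open COR in
theorem bCOR (hQ : St_QLN) (hL : St_LEI) : St_COR := by
  intro n M _ G L φ W s κ b c ε η t hG hw hW hs hκ k01 e0 η0 η1 t0 hg h1 ib ic bc hc hd
  have hm := hG.toMet
  have hi := (mMU n M G hm).2.2.2.2.1
  obtain ⟨v, hv, cv, ew, nv⟩ := rep hG hw hW
  obtain ⟨l1, l2, l3⟩ := hL n M G L φ v s κ hm hv hs hκ
  choose a a1 a2 a3 a4 a5 a6 using l3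
  have hT : M.Ten (M.hw φ + M.ric G) := hw.clo.toTen.add ((mHES n M).2.2.2.2.2.2.2.2.1 G hm).toTen
  obtain ⟨-, -, c1, -, c2, -⟩ := st_SC n M G L φ _ _ hm hw l1 l1
  obtain ⟨-, -, c3, -⟩ := st_SC n M G L φ _ _ hm hw hv hv
  have iv := hi _ _ (c3 G hm.toTen).2
  have iθ := hi _ _ (c1 _ (hT.add (hm.toTen.smul ε))).2
  have iN := hi _ _ (hw.nr_sm (hW.wd_sec hm hw)).continuous
  have ρ0 : ∀ x, 0 < Real.exp (-M.ev φ x) := fun x => Real.exp_pos _
  have n0 : ∀ x, 0 ≤ nq (M.ev G x) (M.ev v x) := fun x => nq0 (hm.ev_pos x).posSemidef _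
  have a7 : ∀ x, normSq (a x) ≤ η ^ 2 * nq (M.ev G x) (M.ev v x) := fun x =>
    (a1 x).trans (mul_le_mul_of_nonneg_right (hg x) (n0 x))
  have e1 : ∫ x, spC M φ (wd M G φ W) s x ∂M.mu G =
      -∫ x, vp M G φ v (du M G (fs M κ s)) x ∂M.mu G := by
    rw [← (st_WDV n M G L φ v hm hw hv).2 _ l2]
    refine integral_congr_ae (.of_forall fun x => ?_)
    simp only [spC, ew, a4]
    by_cases h : M.ev (wd M G φ W) x = 0
    · simp only [h, zero_mul]
    · simp only [h1 x h, ofReal_one, one_mul]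
  have e2 : ∫ x, tv M (M.hw φ + M.ric G + ε • G) φ (fm M κ v) x ∂M.mu G ≤
      (1 + η) * ∫ x, M.nrC φ (wd M G φ W) x ∂M.mu G + (ε + 3 * η) * ∫ x, tv M G φ W x ∂M.mu G := by
    have i1 := hi _ _ (c1 _ hT).2
    have i2 := hi _ _ c2
    have p1 := integral_mono iθ ((i1.add i2).add (iv.const_mul (η ^ 2 + ε))) fun x => by
      have q1 := hQ n M G L φ v κ hG hv cv hκ x
      have q2 : tv M (M.hw φ + M.ric G + ε • G) φ (fm M κ v) x =
          tv M (M.hw φ + M.ric G) φ (fm M κ v) x + ε * (κ x ^ 2 * tv M G φ v x) := by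
        have : M.ev (M.hw φ + M.ric G + ε • G) x = M.ev (M.hw φ + M.ric G) x + ε • M.ev G x := rfl
        simp only [tv, this, nq1, a3, nq2]
        ring
      have q3 : 0 ≤ tv M G φ v x := mul_nonneg (n0 x) (ρ0 x).le
      have q4 := mul_le_mul_of_nonneg_right (hg x) q3
      have q5 := mul_le_mul_of_nonneg_left (mul_le_of_le_one_left q3
        (pow_le_one₀ (n := 2) (k01 x).1 (k01 x).2)) e0
      simp only [Pi.add_apply]
      linarith
    rw [integral_add' (i1.add i2) (iv.const_mul _), integral_add' i1 i2,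
      st_BOC n M G L φ _ hm hw l1, integral_const_mul] at p1
    have p2 := integral_mono (hi _ _ (hw.nr_sm (l1.wd_sec hm hw)).continuous)
      ((iN.const_mul (1 + η)).add (iv.const_mul (η ^ 2 + η))) fun x => by
      simp only [Pi.add_apply, Mf.nrC, a5, ew, tv]
      exact (mul_le_mul_of_nonneg_right (sum (k01 x).1 (k01 x).2 η0 (n0 x) (a7 x))
        (ρ0 x).le).trans_eq (by ring)
    rw [integral_add' (iN.const_mul _) (iv.const_mul _), integral_const_mul,
      integral_const_mul] at p2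
    have p3 : 0 ≤ ∫ x, tv M G φ v x ∂M.mu G :=
      integral_nonneg fun x => mul_nonneg (n0 x) (ρ0 x).le
    have p4 : η ^ 2 ≤ η := by nlinarith
    have p5 := mul_le_mul_of_nonneg_left nv (show 0 ≤ ε + 3 * η by positivity)
    nlinarith [mul_le_mul_of_nonneg_right p4 p3]
  have j1 := (((ib.const_mul t).add (iθ.div_const t)).div_const 2)
  have j2 := ((ic.add iv).const_mul η).div_const 2
  have e3 := norm_integral_le_of_norm_le (f := vp M G φ v (du M G (fs M κ s))) (j1.add j2)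
    (.of_forall fun x => by
      have q3 : 0 ≤ tv M G φ v x := mul_nonneg (n0 x) (ρ0 x).le
      simp only [Pi.add_apply]
      rw [a6, norm_mul, norm_real, Real.norm_of_nonneg (ρ0 x).le]
      by_cases hx : x ∈ tsupport κ
      · obtain ⟨d1, d2⟩ := hd.ch x ((Mf.ch_symm x).symm ▸ hx)
        have d3 := d2 (M.ev (fm M κ v) x)
        rw [Mf.ch_symm] at d3
        have y0 : 0 ≤ tv M (M.hw φ + M.ric G + ε • G) φ (fm M κ v) x :=
          mul_nonneg (nq0 d1 _) (ρ0 x).le
        refine (mul_le_mul_of_nonneg_right (norm_add_le _ _) (ρ0 x).le).trans ?_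
        rw [add_mul, norm_star, norm_mul, norm_star, mul_add η]
        refine add_le_add (amg (mul_nonneg t0.le (bc x).1) (div_nonneg y0 t0.le) ?_)
          (amg (mul_nonneg η0.le (bc x).2) (mul_nonneg η0.le q3) ?_)
        · rw [mul_pow, ← normSq_eq_norm_sq, sq, ← mul_assoc, mul_assoc t, mul_comm t, mul_assoc _ _ t,
            div_mul_cancel₀ _ t0.ne']
          exact (mul_le_mul_of_nonneg_right d3 (ρ0 x).le).trans_eq (mul_assoc _ _ _)
        · have d4 := mul_le_mul (hc x hx) (mul_le_mul_of_nonneg_right (a7 x) (ρ0 x).le)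
            (mul_nonneg (normSq_nonneg _) (ρ0 x).le) (bc x).2
          simp only [Mf.nrC, normSq_eq_norm_sq] at d4
          refine le_trans (le_of_eq (by ring)) (d4.trans_eq ?_)
          simp only [tv]
          ring
      · have k0 := image_eq_zero_of_notMem_tsupport hx
        simp only [a2 x hx, a3, k0, tv, dbv, nq, ofReal_zero, zero_smul, Pi.zero_apply, star_zero,
          zero_mul, mul_zero, Finset.sum_const_zero, add_zero, norm_zero, zero_dotProduct, zero_re,
          zero_div]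
        have := (bc x).1
        have := (bc x).2
        have := mul_nonneg (n0 x) (ρ0 x).le
        simp only [nq] at this
        positivity)
  rw [integral_add' j1 j2, integral_div, integral_div,
    integral_add' (ib.const_mul t) (iθ.div_const t), integral_const_mul, integral_div,
    integral_const_mul, integral_add' ic iv] at e3
  rw [e1, norm_neg]
  refine e3.trans (add_le_add ?_ ?_) <;> gcongr

end Pool.Agent.Lib.KH
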