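import Pool.Agent.Lib.KH.Blue
import Pool.Agent.Lib.EXH.B_ALG

/-! Project kh, row DUA: the dual estimate for one weight. -/

open scoped Classical Topology ContDiff ComplexOrder Matrix ENNReal
open Set MeasureTheory Complex Metric Filter

noncomputable section

namespace Pool.Agent.Lib.KH

open Pool.Agent.Lib.SV (E)
open Pool.Agent.Lib.HS32 Pool.Agent.Lib.KP Pool.Agent.Lib.EXH

namespace DUA

theorem sq_le {x B Y : ℝ} (x0 : 0 ≤ x) (B0 : 0 ≤ B) (Y0 : 0 ≤ Y)
    (h : ∀ t > 0, x ≤ (t * B + Y / t) / 2) : x ^ 2 ≤ B * Y := by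
  rcases x0.eq_or_lt with rfl | x1
  · simpa using mul_nonneg B0 Y0
  rcases B0.eq_or_lt with rfl | B1
  · have k := h ((Y + 1) / x) (by positivity)
    have e : Y / ((Y + 1) / x) = x * (Y / (Y + 1)) := by field_simp
    have l : Y / (Y + 1) ≤ 1 := (div_le_one (by positivity)).2 (by linarith)
    rw [e] at k
    nlinarith
  · have k := h (x / B) (by positivity)
    have e : (x / B * B + Y / (x / B)) / 2 = (x + B * Y / x) / 2 := by field_simp
    rw [e] at k
    have l : x ≤ B * Y / x := by linarith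
    rw [le_div_iff₀ x1] at l
    linarith

theorem le_lim {x a C : ℝ} (h : ∀ η > 0, η ≤ 1 → x ≤ a + η * C) : x ≤ a := by
  have t : Tendsto (fun η : ℝ => a + η * C) (𝓝[>] 0) (𝓝 a) := by
    have c : Continuous fun η : ℝ => a + η * C := by fun_prop
    simpa using (c.tendsto 0).mono_left (nhdsWithin_le_nhds (s := Ioi 0))
  exact ge_of_tendsto t (Filter.mem_of_superset (Ioc_mem_nhdsGT zero_lt_one) fun η b => h η b.1 b.2)

variable {n : ℕ}

theorem nq0 {T : Mat n} (h : T.PosSemidef) (v : E n) : 0 ≤ nq T v :=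
  (Complex.le_def.1 (h.dotProduct_mulVec_nonneg v)).1

theorem nq_le {S T : Mat n} (h : (T - S).PosSemidef) (v : E n) : nq S v ≤ nq T v := by
  have k := nq0 h v
  simp only [nq, Matrix.sub_mulVec, dotProduct_sub, sub_re] at k ⊢
  linarith

theorem nq_sm (T : Mat n) (a : ℝ) (v : E n) : nq (a • T) v = a * nq T v := by
  simp only [nq, Matrix.smul_mulVec, dotProduct_smul, smul_re, smul_eq_mul]

variable {M : Mf n} [M.Cpt] {H G : M.Fam (Mat n)} {O S : Set M.X}

theorem ind (hH : M.Met H) (hG : M.Met G) (hO : MeasurableSet O) (hS : MeasurableSet S)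
    (SO : S ⊆ O) {g : M.X → ℝ} (m : AEMeasurable g ((M.mu H).restrict O)) (g0 : ∀ x ∈ O, 0 ≤ g x)
    (fin : Jo M H O g ≠ ⊤) : Integrable (S.indicator fun x => g x / M.dq H G x) (M.mu G) ∧
      ∫ x, S.indicator (fun x => g x / M.dq H G x) x ∂M.mu G ≤ (Jo M H O g).toReal := by
  obtain ⟨w1, w2, -⟩ := (mMU n M H hH).2.2.2.2.2.2 G hG
  have dp := ((mINV n M H hH).2.2.2.2.2.2.2 G hG).1
  have h0 : 0 ≤ᵐ[(M.mu H).restrict O] g := (ae_restrict_iff' hO).2 (ae_of_all _ g0)
  have iO : IntegrableOn g O (M.mu H) :=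
    ⟨m.aestronglyMeasurable, (hasFiniteIntegral_iff_ofReal h0).2 (lt_top_iff_ne_top.2 fin)⟩
  have e : ∀ x, M.dq H G x * S.indicator (fun x => g x / M.dq H G x) x = S.indicator g x :=
    fun x => by
    by_cases hx : x ∈ S
    · rw [indicator_of_mem hx, indicator_of_mem hx, mul_div_cancel₀ _ (dp x).ne']
    · rw [indicator_of_notMem hx, indicator_of_notMem hx, mul_zero]
  refine ⟨?_, ?_⟩
  · rw [w1, integrable_withDensity_iff
      ((mINV n M H hH).1 G hG.toTen).2.2.2.1.continuous.measurable.ennreal_ofReal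
      (ae_of_all _ fun _ => ENNReal.ofReal_lt_top)]
    refine ((integrable_indicator_iff hS).2 (iO.mono_set SO)).congr (ae_of_all _ fun x => ?_)
    beta_reduce
    rw [ENNReal.toReal_ofReal (dp x).le, mul_comm, e]
  · rw [w2, integral_congr_ae (ae_of_all _ e), integral_indicator hS, Jo,
      ← integral_eq_lintegral_of_nonneg_ae h0 m.aestronglyMeasurable]
    exact setIntegral_mono_set iO h0 SO.eventuallyLE

omit [M.Cpt] in
theorem near {F : Type} {f g : M.X → F} (h : ∀ᶠ x in 𝓝ˢ S, g x = f x) {e : M.Ch} {z : E n}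
    (hz : z ∈ e.target) (hx : e.symm z ∈ S) : ∀ᶠ w in 𝓝 z, g (e.symm w) = f (e.symm w) :=
  (e.continuousAt_symm hz).eventually (h.filter_mono (nhds_le_nhdsSet hx))

omit [M.Cpt] in
theorem nq_c (hH : M.Met H) {V : M.Fam (E n)} (hV : M.Vec V) :
    Continuous fun x => nq (M.ev H x) (M.ev V x) := by
  have w : M.WtC (tri M) 0 := ⟨fun _ _ _ _ => contDiffAt_const, fun _ _ _ _ _ _ _ => by simp [tri]⟩
  have v : VeC M (tri M) V :=
    ⟨hV.sm, fun e he e' he' x hx hx' => (hV.cmp e he e' he' x hx hx').trans (one_smul _ _).symm⟩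
  refine ((st_SC n M H _ 0 V V hH w v v).2.2.1 H hH.toTen).2.congr fun x => ?_
  simp [tv, Mf.ev]

end DUA

open DUA

theorem bDUA (hCOR : St_COR) (hKIT : St_KIT) (hCHG : St_CHG) : St_DUA := by
  intro n M _ H O K hH hO hK KO
  obtain ⟨A, A0, hA⟩ := hO.2 K hK KO
  refine ⟨2 * A, by positivity, fun ε f β Γ V D hV fin => ?_⟩
  have hm := hH.toMet
  obtain ⟨k1, -, k3, -⟩ := hKIT n M H O hm hO.1
  obtain ⟨-, d0, -⟩ := k3 K V hK hV
  have mO := hO.1.measurableSet
  have V0 : ∀ x ∉ K, M.ev V x = 0 := fun x hx =>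
    Mf.AllOn.ch hV.supp x (by rwa [Mf.ch_symm])
  have mf := (((k1 ℝ f D.sf).1.aemeasurable (μ := M.mu H) mO).neg).exp
  have mg := (continuous_normSq.comp_continuousOn (k1 ℂ Γ D.sg).1).aemeasurable (μ := M.mu H) mO
  have e0 := D.e0
  set B := (Jo M H O fun x => β x * Real.exp (-f x)).toReal
  set C := (Jo M H O fun x => normSq (Γ x) * Real.exp (-f x)).toReal
  set N := ∫ x, normSq (dg M H V x) * Real.exp (f x) ∂M.mu H with hN
  set T := ∫ x, nq (M.ev H x) (M.ev V x) * Real.exp (f x) ∂M.mu H with hT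
  have N0 : 0 ≤ N := integral_nonneg fun x => mul_nonneg (normSq_nonneg _) (Real.exp_pos _).le
  have T0 : 0 ≤ T := integral_nonneg fun x =>
    mul_nonneg (nq0 (hm.ev_pos x).posSemidef _) (Real.exp_pos _).le
  rw [normSq_eq_norm_sq]
  refine sq_le (norm_nonneg _) ENNReal.toReal_nonneg (by positivity) fun t t0 =>
    le_lim (C := (N + 3 * (A * T)) / t / 2 + (C + A * T) / 2) fun η η0 η1 => ?_
  obtain ⟨G, κ, hG, HG, GH, κs, κ01, κ1, κO, κg⟩ := hA η η0
  have cS : IsCompact (tsupport κ) := (isClosed_tsupport κ).isCompact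
  have mS := (isClosed_tsupport κ).measurableSet
  obtain ⟨f', sf, ef⟩ := (k1 ℝ f D.sf).2 _ (cS.union hK) (union_subset κO KO)
  obtain ⟨Γ', sg, eg⟩ := (k1 ℂ Γ D.sg).2 _ (cS.union hK) (union_subset κO KO)
  have ef0 := ef.self_of_nhdsSet
  have eg0 := eg.self_of_nhdsSet
  obtain ⟨φ, W, s, hφ, hW, hs, es, c1, c2⟩ := hCHG n M H G f' V Γ' hm hG.toMet sf hV.vec sg
  obtain ⟨-, w2, w3⟩ := (mMU n M H hm).2.2.2.2.2.2 G hG.toMet
  have dp := ((mINV n M H hm).2.2.2.2.2.2.2 G hG.toMet).1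
  have b0 : ∀ x ∈ O, 0 ≤ β x * Real.exp (-f x) := fun x hx =>
    mul_nonneg (D.b0 x hx) (Real.exp_pos _).le
  have g0 : ∀ x ∈ O, 0 ≤ normSq (Γ x) * Real.exp (-f x) := fun x _ =>
    mul_nonneg (normSq_nonneg _) (Real.exp_pos _).le
  obtain ⟨ib, lb⟩ := ind (g := fun x => β x * Real.exp (-f x)) hm hG.toMet mO mS κO
    (D.mb.mul mf) b0 fin
  obtain ⟨ic, lc⟩ := ind (g := fun x => normSq (Γ x) * Real.exp (-f x)) hm hG.toMet mO mS κO
    (mg.mul mf) g0 D.fin
  have key := hCOR n M G _ φ W s κ _ _ (2 * ε) η t hG hφ hW hs κs κ01 (by positivity) η0 η1 t0 κg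
    (fun x hx => κ1 x (by_contra fun h => hx (by rw [(c2 x).1, d0 x h, mul_zero]))) ib ic
    (fun x => ⟨indicator_nonneg (fun y hy => div_nonneg (b0 y (κO hy)) (dp y).le) x,
      indicator_nonneg (fun y hy => div_nonneg (g0 y (κO hy)) (dp y).le) x⟩)
    (fun x hx => by
      rw [indicator_of_mem hx, le_div_iff₀ (dp x), mul_comm, (c2 x).2.2.2.1, ef0 x (Or.inl hx),
        eg0 x (Or.inl hx)])
    (fun e he z hz hx => by
      have q1 : M.hs f' e z = M.hs f e z :=
        hess_congr ((near ef hz (Or.inl hx)).mono fun w hw => congrArg ofReal hw)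
      have q2 : ∀ v, dbv (s e) z v = dbv (Γ ∘ e.symm) z v := fun v => by
        rw [es]
        exact Finset.sum_congr rfl fun i _ => by
          rw [dzb_congr (f := Γ' ∘ e.symm) (g := Γ ∘ e.symm) (near eg hz (Or.inl hx))]
      have q3 : (M.hw φ e z + M.ric G e z + (2 * ε) • G e z -
          (M.hs f e z + M.ric H e z + ε • H e z)).PosSemidef := by
        rw [(c1 e he z hz).1, q1, add_sub_add_left_eq_sub, mul_comm, mul_smul, ← smul_sub]
        exact Mf.psd_rsmul (HG e he z hz) e0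
      have p := D.pos e he z hz (κO hx)
      refine ⟨by simpa using q3.add p, fun v => ?_⟩
      rw [q2, indicator_of_mem hx, div_mul_eq_mul_div, le_div_iff₀ (dp _), mul_assoc,
        (c1 e he z hz).2, ef0 _ (Or.inl hx), mul_right_comm]
      exact mul_le_mul_of_nonneg_right ((D.dom e he z hz (κO hx) v).trans
        (mul_le_mul_of_nonneg_left (nq_le q3 v) (D.b0 _ (κO hx)))) (Real.exp_pos _).le)
  have a1 : ∫ x, spC M φ (wd M G φ W) s x ∂M.mu G = ∫ x, dg M H V x * star (Γ x) ∂M.mu H := by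
    rw [w3]
    refine integral_congr_ae (ae_of_all _ fun x => ?_)
    beta_reduce
    rw [(c2 x).2.1]
    by_cases hx : x ∈ K
    · rw [eg0 x (Or.inr hx)]
    · rw [d0 x hx, zero_mul, zero_mul]
  have a2 : ∫ x, M.nrC φ (wd M G φ W) x ∂M.mu G = N := by
    rw [w2]
    refine integral_congr_ae (ae_of_all _ fun x => ?_)
    beta_reduce
    rw [(c2 x).2.2.1]
    by_cases hx : x ∈ K
    · rw [ef0 x (Or.inr hx)]
    · rw [d0 x hx, map_zero, zero_mul, zero_mul]
  have a3 : ∫ x, tv M G φ W x ∂M.mu G ≤ A * T := by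
    have z0 : ∀ P : Mat n, nq P 0 = 0 := fun P => by simp [nq]
    have i : Integrable (fun x => nq (M.ev H x) (M.ev V x) * Real.exp (f x)) (M.mu H) := by
      refine ((mMU n M H hm).2.2.2.2.1 ℝ _ ((nq_c hm hV.vec).mul sf.exp.continuous)).congr
        (ae_of_all _ fun x => ?_)
      simp only [Pi.mul_apply]
      by_cases hx : x ∈ K
      · rw [ef0 x (Or.inr hx)]
      · rw [V0 x hx, z0, zero_mul, zero_mul]
    rw [w2, hT, ← integral_const_mul]
    refine integral_mono_of_nonneg (ae_of_all _ fun x => ?_) (i.const_mul A) (ae_of_all _ fun x => ?_)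
    · beta_reduce
      rw [(c2 x).2.2.2.2]
      exact mul_nonneg (nq0 (hG.toMet.ev_pos x).posSemidef _) (Real.exp_pos _).le
    · beta_reduce
      rw [(c2 x).2.2.2.2]
      by_cases hx : x ∈ K
      · rw [ef0 x (Or.inr hx), ← mul_assoc, ← nq_sm]
        exact mul_le_mul_of_nonneg_right
          (nq_le (Mf.AllOn.ch GH x (by rwa [Mf.ch_symm])) _) (Real.exp_pos _).le
      · rw [V0 x hx, z0, z0, zero_mul, zero_mul, mul_zero]
  rw [a1, a2] at key
  refine key.trans ?_
  have u1 := mul_le_mul_of_nonneg_left lb t0.le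
  have u2 := div_le_div_of_nonneg_right (mul_le_mul_of_nonneg_left a3
    (by positivity : 0 ≤ 2 * ε + 3 * η)) t0.le
  have u3 := mul_le_mul_of_nonneg_left (add_le_add lc a3) η0.le
  have u4 : (t * B + (N + ε * (2 * A) * T) / t) / 2 +
      η * ((N + 3 * (A * T)) / t / 2 + (C + A * T) / 2) =
      (t * B + ((1 + η) * N / t + (2 * ε + 3 * η) * (A * T) / t)) / 2 + η * (C + A * T) / 2 := by
    ring
  rw [u4, add_div ((1 + η) * N)]
  linarith

end Pool.Agent.Lib.KH
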