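import Pool.Agent.Lib.KH.Blue

/-! Row `KHL` of the project kh: an arbitrary sequence of weights. -/

open scoped Classical Topology ContDiff ComplexOrder Matrix ENNReal
open Set MeasureTheory Complex Metric Filter

noncomputable section

namespace Pool.Agent.Lib.KH

open Pool.Agent.Lib.SV (E)
open Pool.Agent.Lib.HS32 Pool.Agent.Lib.KP Pool.Agent.Lib.EXH

namespace KHL

theorem pick {Y : Type} [MeasurableSpace Y] {μ : Measure Y} {G : Y → ℝ≥0∞} {d : ℕ → Y → ℝ≥0∞}
    (hG : AEMeasurable G μ) (hd : ∀ i, AEMeasurable (d i) μ) (Gt : ∀ x, G x ≠ ⊤) (N : ℕ)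
    (fin : ∫⁻ x, G x * d N x ∂μ ≠ ⊤) {δ : ℝ≥0∞} (hδ : δ ≠ 0) :
    ∃ m : ℕ, ∫⁻ x, G x * ⨅ i : Fin (m + 1), d (i + N) x ∂μ ≤
      ∫⁻ x, G x * liminf (fun i => d i x) atTop ∂μ + δ := by
  have h := lintegral_iInf' (μ := μ) (f := fun m x => G x * ⨅ i : Fin (m + 1), d (i + N) x)
    (fun m => hG.mul (AEMeasurable.iInf fun i => hd _))
    (Eventually.of_forall fun x a b hab => mul_le_mul_right (le_iInf fun i =>
      iInf_le_of_le (Fin.castLE (Nat.succ_le_succ hab) i) le_rfl) _)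
    (ne_top_of_le_ne_top fin (lintegral_mono fun x => mul_le_mul_right
      (iInf_le_of_le 0 (by simp)) _))
  have h2 : ⨅ m : ℕ, ∫⁻ x, G x * ⨅ i : Fin (m + 1), d (i + N) x ∂μ ≤
      ∫⁻ x, G x * liminf (fun i => d i x) atTop ∂μ := by
    rw [← h]
    refine lintegral_mono fun x => ?_
    rw [← ENNReal.mul_iInf fun c => (Gt x c).elim, liminf_eq_iSup_iInf_of_nat']
    exact mul_le_mul_right (le_iSup_of_le N (le_iInf fun i =>
      iInf_le_of_le i (iInf_le_of_le (Fin.last i) le_rfl))) _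
  by_cases c : ∫⁻ x, G x * liminf (fun i => d i x) atTop ∂μ = ⊤
  · exact ⟨0, by rw [c, top_add]; exact le_top⟩
  · obtain ⟨m, hm⟩ := iInf_lt_iff.1 (h2.trans_lt (ENNReal.lt_add_right c hδ))
    exact ⟨m, hm.le⟩

theorem low {ρ R : ℕ → ℝ} {a : ℝ} {ι : ℕ → ℕ} (hι : ∀ k, k ≤ ι k)
    (h : ∀ k, R k ≤ ρ (ι k) + 1 / ((k : ℝ) + 1)) :
    ENNReal.ofReal (Real.exp (-a)) * liminf (fun i => ENNReal.ofReal (Real.exp (-ρ i))) atTop ≤
      liminf (fun k => ENNReal.ofReal (Real.exp (-(a + R k)))) atTop := by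
  have t1 : Tendsto (fun k : ℕ => ENNReal.ofReal (Real.exp (-(a + 1 / ((k : ℝ) + 1))))) atTop
      (𝓝 (ENNReal.ofReal (Real.exp (-(a + 0))))) :=
    ENNReal.tendsto_ofReal ((Real.continuous_exp.tendsto _).comp
      (tendsto_const_nhds.add tendsto_one_div_add_atTop_nhds_zero_nat).neg)
  rw [add_zero] at t1
  have t2 : liminf (fun i => ENNReal.ofReal (Real.exp (-ρ i))) atTop ≤
      liminf (fun k => ENNReal.ofReal (Real.exp (-ρ (ι k)))) atTop :=
    (liminf_le_liminf_of_le (tendsto_atTop_mono hι tendsto_id)).trans_eq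
      (liminf_comp (fun i => ENNReal.ofReal (Real.exp (-ρ i))) ι atTop).symm
  rw [← t1.liminf_eq]
  refine ((mul_le_mul_right t2 _).trans ENNReal.le_liminf_mul).trans
    (liminf_le_liminf (Eventually.of_forall fun k => ?_))
  rw [Pi.mul_apply, ← ENNReal.ofReal_mul (Real.exp_pos _).le, ← Real.exp_add]
  exact ENNReal.ofReal_le_ofReal (Real.exp_le_exp.2 (by linarith [h k]))

theorem nq_le {n : ℕ} (A : Mat n) {B : Mat n} (h : B.PosSemidef) (v : E n) :
    nq A v ≤ nq (A + B) v := by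
  have := (Complex.le_def.1 (h.dotProduct_mulVec_nonneg v)).1
  simp only [nq, Matrix.add_mulVec, dotProduct_add, add_re]
  exact le_add_of_nonneg_right this

end KHL

open KHL in
theorem bKHL (hKH : St_KH) (hMAX : St_MAX) (hKIT : St_KIT) : St_KHL := by
  intro n M _ H O ε ρ ph β Γ hH hO hW hL hβ hD hfin
  obtain ⟨kc, -, -, -, -, ka⟩ := hKIT n M H O hH.toMet hO.1
  have mO := hO.1.measurableSet
  have p1 : ∀ k : ℕ, (0 : ℝ) < 1 / ((k : ℝ) + 1) := fun k => Nat.one_div_pos_of_nat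
  have mρ : ∀ i, AEMeasurable (fun x => ENNReal.ofReal (Real.exp (-ρ i x)))
      ((M.mu H).restrict O) := fun i =>
    (Real.continuous_exp.comp_continuousOn (kc ℝ _ (hW.sm i)).1.neg).aemeasurable mO
      |>.ennreal_ofReal
  have mG : AEMeasurable (fun x => ENNReal.ofReal (β x * Real.exp (-ph x)))
      ((M.mu H).restrict O) :=
    (hβ.mul ((Real.continuous_exp.comp_continuousOn (kc ℝ _ hD.sf).1.neg).aemeasurable
      mO)).ennreal_ofReal
  have sp : ∀ a b c : ℝ, ENNReal.ofReal (a * Real.exp (-(b + c))) =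
      ENNReal.ofReal (a * Real.exp (-b)) * ENNReal.ofReal (Real.exp (-c)) := fun a b c => by
    rw [← ENNReal.ofReal_mul' (Real.exp_pos _).le, mul_assoc, ← Real.exp_add, neg_add]
  have key : ∀ k : ℕ, ∃ R : M.X → ℝ,
      Dat M H O (1 / ((k : ℝ) + 1)) (fun x => ph x + R x) β Γ ∧
      (∀ x, ∃ i, k ≤ i ∧ R x ≤ ρ i x + 1 / ((k : ℝ) + 1)) ∧
      Jo M H O (fun x => β x * Real.exp (-(ph x + R x))) ≤
        ∫⁻ x in O, ENNReal.ofReal (β x * Real.exp (-ph x)) * lden ρ x ∂M.mu H +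
          ENNReal.ofReal (1 / ((k : ℝ) + 1)) := fun k => by
    obtain ⟨N₀, hN₀⟩ := eventually_atTop.1 (hW.lim.eventually_le_const (p1 k))
    obtain ⟨m, hm⟩ := pick mG mρ (fun _ => ENNReal.ofReal_ne_top) (N₀ + k)
      (by simpa only [Jo, sp] using (hfin (N₀ + k)).1) (ENNReal.ofReal_pos.2 (p1 k)).ne'
    obtain ⟨R, sR, pR, hR⟩ := hMAX n M O (M.ric H + (1 / ((k : ℝ) + 1)) • H) m
      (fun i => ρ (i + (N₀ + k))) _ hO.1 (p1 k) fun i => ⟨hW.sm _, fun e he z hz hx => by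
        have h1 := (hW.pos (i + (N₀ + k)) e he z hz hx).add
          (Mf.psd_rsmul (hH.pos e he z hz).posSemidef
          (sub_nonneg.2 (hN₀ (i + (N₀ + k)) (by omega))))
        rwa [sub_smul, add_add_sub_cancel, add_assoc] at h1⟩
    obtain ⟨s1, s2⟩ := ka ph R hD.sf sR
    have e1 : OnK M O fun e z => M.hs (fun x => ph x + R x) e z + M.ric H e z +
        (1 / ((k : ℝ) + 1)) • H e z =
        M.hs ph e z + (M.hs R e z + (M.ric H + (1 / ((k : ℝ) + 1)) • H) e z) :=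
      fun e he z hz hx => by
        beta_reduce
        rw [s2 e he z hz hx, add_assoc, add_assoc]
        rfl
    refine ⟨R, ⟨(p1 k).le, s1, hD.sg, hβ, hD.b0, fun e he z hz hx => ?_,
      fun e he z hz hx v => ?_, ?_⟩, fun x => ?_, le_trans ?_ hm⟩
    · beta_reduce
      rw [e1 e he z hz hx]
      exact (hD.pos e he z hz hx).add (pR e he z hz hx)
    · rw [e1 e he z hz hx]
      exact (hD.dom e he z hz hx v).trans
        (mul_le_mul_of_nonneg_left (nq_le _ (pR e he z hz hx) v) (hD.b0 _ hx))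
    · refine ne_top_of_le_ne_top (hfin ((0 : Fin (m + 1)) + (N₀ + k))).2 (lintegral_mono fun x => ?_)
      exact ENNReal.ofReal_le_ofReal (mul_le_mul_of_nonneg_left
        (Real.exp_le_exp.2 (by linarith [(hR x).1 0])) (normSq_nonneg _))
    · obtain ⟨i, hi⟩ := (hR x).2
      exact ⟨i + (N₀ + k), by omega, hi⟩
    · refine lintegral_mono fun x => ?_
      beta_reduce
      rw [sp]
      exact mul_le_mul_right (le_iInf fun i => ENNReal.ofReal_le_ofReal
        (Real.exp_le_exp.2 (neg_le_neg ((hR x).1 i)))) _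
  choose R hR1 hR2 hR3 using key
  obtain ⟨F, hF, hI⟩ := hKH n M H O (fun k => 1 / ((k : ℝ) + 1)) (fun k x => ph x + R k x)
    (fun _ => β) Γ hH hO hR1 tendsto_one_div_add_atTop_nhds_zero_nat fun x hx => by
      obtain ⟨C, hC⟩ := hL x hx
      have c := ((kc ℝ _ hD.sf).1.continuousAt (hO.1.mem_nhds hx)).eventually_le_const
        (lt_add_one (ph x))
      refine ⟨ph x + 1 + (C + 1), (hC.and c).mono fun y hy k => ?_⟩
      obtain ⟨i, -, hi⟩ := hR2 k y
      have : 1 / ((k : ℝ) + 1) ≤ 1 := by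
        rw [div_le_one (by positivity)]
        linarith [k.cast_nonneg (α := ℝ)]
      linarith [hy.1 i, hy.2]
  refine ⟨F, hF, (le_trans (lintegral_mono fun x => ?_) hI).trans ?_⟩
  · choose ι h1 h2 using fun k => hR2 k x
    rw [ENNReal.ofReal_mul (normSq_nonneg _), mul_assoc]
    exact mul_le_mul_right (low (ρ := fun i => ρ i x) (R := fun k => R k x) h1 h2) _
  · have t : Tendsto (fun k : ℕ =>
        ∫⁻ x in O, ENNReal.ofReal (β x * Real.exp (-ph x)) * lden ρ x ∂M.mu H +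
          ENNReal.ofReal (1 / ((k : ℝ) + 1))) atTop (𝓝 (_ + ENNReal.ofReal 0)) :=
      tendsto_const_nhds.add (ENNReal.tendsto_ofReal tendsto_one_div_add_atTop_nhds_zero_nat)
    rw [ENNReal.ofReal_zero, add_zero] at t
    exact (liminf_le_liminf (Eventually.of_forall hR3)).trans_eq t.liminf_eq

end Pool.Agent.Lib.KH
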