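import Pool.Agent.Lib.KH.Blue

/-! Block KHM: a decreasing sequence of weights. -/

open scoped Classical Topology ContDiff ComplexOrder Matrix ENNReal
open Set MeasureTheory Complex Metric Filter

noncomputable section

namespace Pool.Agent.Lib.KH

open Pool.Agent.Lib.SV (E)
open Pool.Agent.Lib.HS32 Pool.Agent.Lib.KP Pool.Agent.Lib.EXH

namespace KHM

theorem nq_up {n : ℕ} (S : Mat n) {T : Mat n} (h : T.PosSemidef) (v : E n) :
    nq S v ≤ nq (S + T) v := by
  have h1 : 0 ≤ nq T v := (Complex.nonneg_iff.1 (h.dotProduct_mulVec_nonneg v)).1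
  have h2 : nq (S + T) v = nq S v + nq T v := by
    simp only [nq, Matrix.add_mulVec, dotProduct_add, add_re]
  linarith

theorem lden_sup {Y : Type} {ρ : ℕ → Y → ℝ} {x : Y} (h : ∀ i, ρ (i + 1) x ≤ ρ i x) :
    lden ρ x = ⨆ i, ENNReal.ofReal (Real.exp (-ρ i x)) := by
  have hm : Monotone fun i => ENNReal.ofReal (Real.exp (-ρ i x)) :=
    monotone_nat_of_le_succ fun i =>
      ENNReal.ofReal_le_ofReal (Real.exp_le_exp.2 (neg_le_neg (h i)))
  exact (tendsto_atTop_iSup hm).liminf_eq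

theorem split (c a b : ℝ) : ENNReal.ofReal (c * Real.exp (-(a + b))) =
    ENNReal.ofReal (Real.exp (-b)) * ENNReal.ofReal (c * Real.exp (-a)) := by
  rw [← ENNReal.ofReal_mul (Real.exp_pos _).le, neg_add, Real.exp_add]
  ring_nf

theorem lden_add {Y : Type} {ρ : ℕ → Y → ℝ} {x : Y} (h : ∀ i, ρ (i + 1) x ≤ ρ i x) (ph : Y → ℝ)
    {c : ℝ} (hc : 0 ≤ c) : ENNReal.ofReal c * lden (fun i y => ph y + ρ i y) x =
      lden ρ x * ENNReal.ofReal (c * Real.exp (-ph x)) := by
  rw [lden_sup h, lden_sup (ρ := fun i y => ph y + ρ i y) (fun i => by linarith [h i]),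
    ENNReal.mul_iSup, ENNReal.iSup_mul]
  refine iSup_congr fun i => ?_
  rw [← ENNReal.ofReal_mul hc, split]

end KHM

open KHM in
theorem bKHM (hKH : St_KH) (hKIT : St_KIT) : St_KHM := by
  intro n M _ H O ε ρ hH hC hW hd ph β Γ hβ hD hfin
  obtain ⟨k1, k2, -, -, -, k6⟩ := hKIT n M H O hH.toMet hC.1
  have hO : MeasurableSet O := hC.1.measurableSet
  have cρ : ∀ i, ContinuousOn (ρ i) O := fun i => (k1 ℝ _ (hW.sm i)).1
  have cph : ContinuousOn ph O := (k1 ℝ _ hD.sf).1
  have cΓ : ContinuousOn Γ O := (k1 ℂ _ hD.sg).1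
  have aeO : ∀ᵐ x ∂(M.mu H).restrict O, x ∈ O := ae_restrict_mem hO
  have mph : AEMeasurable (fun x => Real.exp (-ph x)) ((M.mu H).restrict O) :=
    (Real.continuous_exp.comp_continuousOn cph.neg).aemeasurable hO
  have ml : AEMeasurable (lden ρ) ((M.mu H).restrict O) := by
    have h1 : AEMeasurable (fun x => ⨆ i, ENNReal.ofReal (Real.exp (-ρ i x)))
        ((M.mu H).restrict O) := AEMeasurable.iSup fun i =>
      ((Real.continuous_exp.comp_continuousOn (cρ i).neg).aemeasurable hO).ennreal_ofReal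
    refine h1.congr ?_
    filter_upwards [aeO] with x hx
    exact (lden_sup fun i => hd i x hx).symm
  have le1 : ∀ i, ∀ x ∈ O, ENNReal.ofReal (Real.exp (-ρ i x)) ≤ lden ρ x := fun i x hx => by
    rw [lden_sup fun i => hd i x hx]
    exact le_iSup (fun i => ENNReal.ofReal (Real.exp (-ρ i x))) i
  have hac : (M.mu H).restrict O ≪ ((M.mu H).restrict O).withDensity (lden ρ) := by
    refine withDensity_absolutelyContinuous' ml ?_
    filter_upwards [aeO] with x hx
    exact (lt_of_lt_of_le (ENNReal.ofReal_pos.2 (Real.exp_pos _)) (le1 0 x hx)).ne'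
  have mβ : AEMeasurable β ((M.mu H).restrict O) := hβ.mono_ac hac
  have wd0 : ∀ c : M.X → ℝ, AEMeasurable c ((M.mu H).restrict O) →
      ∫⁻ x, ENNReal.ofReal (c x * Real.exp (-ph x)) ∂((M.mu H).restrict O).withDensity (lden ρ) =
        ∫⁻ x in O, lden ρ x * ENNReal.ofReal (c x * Real.exp (-ph x)) ∂M.mu H := fun c hc =>
    lintegral_withDensity_eq_lintegral_mul₀ ml (hc.mul mph).ennreal_ofReal
  have key : ∀ c : M.X → ℝ, AEMeasurable c ((M.mu H).restrict O) → ∀ i,
      Jo M H O (fun x => c x * Real.exp (-(ph x + ρ i x))) ≤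
        ∫⁻ x, ENNReal.ofReal (c x * Real.exp (-ph x))
          ∂((M.mu H).restrict O).withDensity (lden ρ) := fun c hc i => by
    rw [wd0 c hc]
    refine lintegral_mono_ae ?_
    filter_upwards [aeO] with x hx
    rw [split]
    exact mul_le_mul_left (le1 i x hx) _
  have mΓ : AEMeasurable (fun x => normSq (Γ x)) ((M.mu H).restrict O) :=
    (continuous_normSq.comp_continuousOn cΓ).aemeasurable hO
  have hdat : ∀ i, Dat M H O (ε i) (fun x => ph x + ρ i x) β Γ := fun i => by
    obtain ⟨s1, s2⟩ := k6 ph (ρ i) hD.sf (hW.sm i)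
    have e1 : ∀ e ∈ M.C, ∀ z ∈ e.target, e.symm z ∈ O →
        M.hs (fun x => ph x + ρ i x) e z + M.ric H e z + ε i • H e z =
          M.hs ph e z + (M.hs (ρ i) e z + M.ric H e z + ε i • H e z) := fun e he z hz ho => by
      rw [s2 e he z hz ho, add_assoc, add_assoc, add_assoc]
    refine ⟨hW.e0 i, s1, hD.sg, mβ, hD.b0, fun e he z hz ho => ?_, fun e he z hz ho v => ?_,
      ne_top_of_le_ne_top hfin (key _ mΓ i)⟩
    · exact (congrArg Matrix.PosSemidef (e1 e he z hz ho)).mpr
        ((hD.pos e he z hz ho).add (hW.pos i e he z hz ho))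
    · rw [e1 e he z hz ho]
      exact (hD.dom e he z hz ho v).trans
        (mul_le_mul_of_nonneg_left (nq_up _ (hW.pos i e he z hz ho) v) (hD.b0 _ ho))
  have hlb : Lb M O fun i x => ph x + ρ i x := fun x hx => by
    have hn : O ∈ 𝓝 x := hC.1.mem_nhds hx
    have c1 : ContinuousAt (fun y => ph y + ρ 0 y) x := (cph.add (cρ 0)).continuousAt hn
    refine ⟨ph x + ρ 0 x + 1, ?_⟩
    filter_upwards [hn, c1.eventually (gt_mem_nhds (lt_add_one (ph x + ρ 0 x)))] with y hy h1 i
    have h2 : ρ i y ≤ ρ 0 y := antitone_nat_of_succ_le (f := fun i => ρ i y)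
      (fun i => hd i y hy) (Nat.zero_le i)
    linarith
  obtain ⟨F, hF, hle⟩ := hKH n M H O ε (fun i x => ph x + ρ i x) (fun _ => β) Γ hH hC hdat hW.lim hlb
  refine ⟨F, hF, ?_⟩
  have cF : ContinuousOn F O := (k1 ℂ _ (k2 F hF)).1
  have mF : AEMeasurable (fun x => normSq (Γ x - F x)) ((M.mu H).restrict O) :=
    (continuous_normSq.comp_continuousOn (cΓ.sub cF)).aemeasurable hO
  rw [wd0 _ mF]
  refine le_trans (le_of_eq ?_) (hle.trans
    (liminf_le_of_frequently_le' (Frequently.of_forall fun i => key β mβ i)))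
  refine lintegral_congr_ae ?_
  filter_upwards [aeO] with x hx
  exact (lden_add (fun i => hd i x hx) ph (normSq_nonneg _)).symm

end Pool.Agent.Lib.KH
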