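import Pool.Agent.Lib.KH.Blue
import Pool.Agent.Lib.EXH.B_ALG

/-! Project kh, row LEI: the rules of Leibniz. -/

open scoped Classical Topology ContDiff ComplexOrder Matrix ENNReal
open Set MeasureTheory Complex Metric Filter

noncomputable section

namespace Pool.Agent.Lib.KH

open Pool.Agent.Lib.SV (E)
open Pool.Agent.Lib.HS32 Pool.Agent.Lib.KP Pool.Agent.Lib.EXH
open Pool.Agent.Lib.HS68 (dual wdv)

namespace LEI

variable {n : ℕ}

theorem sym80 {G : Mat n} (hG : G.IsHermitian) (x y : E n) :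
    star (star y ⬝ᵥ G *ᵥ x) = star x ⬝ᵥ G *ᵥ y := by
  rw [Matrix.dotProduct_mulVec (star x), ← hG.eq, ← Matrix.star_mulVec, hG.eq,
    Matrix.star_dotProduct y, star_star]

theorem cs80 {G : Mat n} (hG : G.PosSemidef) (x y : E n) :
    normSq (star x ⬝ᵥ G *ᵥ y) ≤ nq G x * nq G y := by
  let c : PreInnerProductSpace.Core ℂ (E n) :=
    { inner x y := star x ⬝ᵥ G *ᵥ y
      conj_inner_symm x y := sym80 hG.1 x y
      re_inner_nonneg x := hG.re_dotProduct_nonneg x
      add_left x y z := by simp only [star_add, add_dotProduct]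
      smul_left x y r := by
        simp only [star_smul, smul_dotProduct, smul_eq_mul]
        rfl }
  have h := @InnerProductSpace.Core.inner_mul_inner_self_le ℂ (E n) _ _ _ c x y
  change ‖star x ⬝ᵥ G *ᵥ y‖ * ‖star y ⬝ᵥ G *ᵥ x‖ ≤ nq G x * nq G y at h
  rwa [← sym80 hG.1 y x, norm_star, ← sq, Complex.sq_norm] at h

theorem cs81 {G : Mat n} (hG : G.PosDef) (b v : E n) :
    normSq (star b ⬝ᵥ v) ≤ (G⁻¹ * Matrix.of fun i j => b i * star (b j)).trace.re * nq G v := by
  have e : G *ᵥ (G⁻¹ *ᵥ b) = b := by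
    rw [Matrix.mulVec_mulVec, Matrix.mul_nonsing_inv _ hG.det_pos.ne'.isUnit, Matrix.one_mulVec]
  have h := cs80 hG.posSemidef v (G⁻¹ *ᵥ b)
  have e2 : nq G (G⁻¹ *ᵥ b) = (G⁻¹ * Matrix.of fun i j => b i * star (b j)).trace.re := by
    rw [nq, e, Matrix.star_dotProduct, star_def, conj_re]
    congr 1
    simp only [Matrix.trace, Matrix.diag, Matrix.mul_apply, Matrix.of_apply, dotProduct,
      Matrix.mulVec, Finset.mul_sum, Pi.star_apply]
    exact Finset.sum_congr rfl fun i _ => Finset.sum_congr rfl fun j _ => by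
      rw [star_def]
      ring
  rw [e, e2, Matrix.star_dotProduct, star_def, normSq_conj, mul_comm] at h
  exact h

end LEI

open LEI in
theorem bLEI : St_LEI := by
  intro n M G L φ v s κ hG hv hs hκ
  have k1 : M.All fun e z => ContDiffAt ℝ ∞ (M.lc κ e) z := fun e he z hz =>
    cd_ofReal (hκ e he z hz)
  refine ⟨⟨fun e he z hz => (k1 e he z hz).smul (hv.sm e he z hz), fun e he e' he' x hx hx' => ?_⟩,
    ⟨fun e he z hz => (k1 e he z hz).mul (hs.sm e he z hz), fun e he e' he' x hx hx' => ?_⟩,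
    fun x => ?_⟩
  · simp only [fm, e.left_inv hx, e'.left_inv hx', Matrix.mulVec_smul]
    rw [hv.cmp e he e' he' x hx hx', smul_comm]
  · simp only [fs, e.left_inv hx, e'.left_inv hx']
    rw [hs.cmp e he e' he' x hx hx', mul_assoc]
  have he := Mf.ch_mem x
  have hz := Mf.ch_tgt x
  have k2 := cd_diff (k1 _ he _ hz)
  have k3 : M.lc κ (M.ch x) (M.ch x x) = κ x := congrArg (fun y => (κ y : ℂ)) (Mf.ch_symm x)
  have k4 : ∀ k, star (dzb k (M.lc κ (M.ch x)) (M.ch x x)) = dz k (M.lc κ (M.ch x)) (M.ch x x) :=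
    fun k => star_dzb_ofReal k2
  have k5 : M.ev (fm M κ v) x = (κ x : ℂ) • M.ev v x := congrArg (· • M.ev v x) k3
  refine ⟨∑ k, dz k (M.lc κ (M.ch x)) (M.ch x x) * M.ev v x k, ?_, fun hx => ?_, k5,
    congrArg (· * M.ev s x) k3, ?_, ?_⟩
  · have h := cs81 (hG.ev_pos x) (fun k => dzb k (M.lc κ (M.ch x)) (M.ch x x)) (M.ev v x)
    simp only [dotProduct, Pi.star_apply, k4] at h
    exact h
  · have h0 : M.lc κ (M.ch x) =ᶠ[𝓝 (M.ch x x)] fun _ => 0 := by
      have h1 : ∀ᶠ y in 𝓝 ((M.ch x).symm (M.ch x x)), κ y = 0 := by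
        rw [Mf.ch_symm]
        exact notMem_tsupport_iff_eventuallyEq.1 hx
      exact (((M.ch x).continuousAt_symm hz).eventually h1).mono fun w hw => by simp [Mf.lc, hw]
    exact Finset.sum_eq_zero fun k _ => by rw [dz_congr h0, dz_const, zero_mul]
  · simp only [Mf.ev, wd, wdv, Finset.mul_sum, ← Finset.sum_add_distrib]
    refine Finset.sum_congr rfl fun k _ => ?_
    have h := dz_mul (j := k) k2 (cd_diff (hv.smk k _ he _ hz))
    refine (congrArg₂ (· - ·) h (congrArg (_ * ·) (congrFun k5 k))).trans ?_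
    rw [k3]
    simp only [Mf.ev, Pi.smul_apply, smul_eq_mul]
    ring
  · have e1 : star (M.ev (du M G (fs M κ s)) x) ⬝ᵥ M.ev G x *ᵥ M.ev v x =
        ∑ k, M.ev v x k * star (dzb k (fs M κ s (M.ch x)) (M.ch x x)) := by
      rw [Matrix.dotProduct_mulVec, ← (hG.ev_pos x).1.eq, ← Matrix.star_mulVec, dotProduct_comm]
      exact Finset.sum_congr rfl fun k _ => congrArg (_ * star ·) (mul_du hG _ _ he _ hz k)
    rw [vp, e1, k5, dbv, star_sum, Finset.mul_sum, ← Finset.sum_add_distrib]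
    refine congrArg (· * _) (Finset.sum_congr rfl fun k _ => ?_)
    have h := dzb_mul (j := k) k2 (cd_diff (hs.sm _ he _ hz))
    refine (congrArg (_ * star ·) h).trans ?_
    rw [k3, star_add, star_mul', star_mul', k4, star_mul', star_star]
    simp only [Mf.ev, Pi.smul_apply, smul_eq_mul, star_def, conj_ofReal]
    ring

end Pool.Agent.Lib.KH
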