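import Pool.Agent.Lib.KH.Blue

/-! Project kh: the dual estimate for the limit. -/

open scoped Classical Topology ContDiff ComplexOrder Matrix ENNReal
open Set MeasureTheory Complex Metric Filter

noncomputable section

namespace Pool.Agent.Lib.KH

open Pool.Agent.Lib.SV (E)
open Pool.Agent.Lib.HS32 Pool.Agent.Lib.HS32.Mf

namespace LIM

theorem of_le {Y : Type} [MeasurableSpace Y] (μ : Measure Y) {g : Y → ℝ} (h : ∀ x, 0 ≤ g x) :
    ENNReal.ofReal (∫ x, g x ∂μ) ≤ ∫⁻ x, ENNReal.ofReal (g x) ∂μ := by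
  by_cases k : Integrable g μ
  · exact (ofReal_integral_eq_lintegral_ofReal k (.of_forall h)).le
  · simp [integral_undef k]

theorem fat {Y : Type} [MeasurableSpace Y] {μ : Measure Y} {f : ℕ → Y → ℝ≥0∞} {c : ℝ≥0∞}
    [IsFiniteMeasure μ] (hc : c ≠ ⊤) (m : ∀ i, AEMeasurable (f i) μ) (b : ∀ i x, f i x ≤ c) :
    limsup (fun i => ∫⁻ x, f i x ∂μ) atTop ≤ ∫⁻ x, limsup (fun i => f i x) atTop ∂μ := by
  have e : ∀ᵐ x ∂μ, ∀ i, f i x = (m i).mk (f i) x := ae_all_iff.2 fun i => (m i).ae_eq_mk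
  have k := limsup_lintegral_le (μ := μ) (fun _ => c) (fun i => (m i).measurable_mk)
    (fun i => e.mono fun x hx => (hx i).symm.trans_le (b i x))
    (by rw [lintegral_const]; exact ENNReal.mul_ne_top hc (measure_ne_top _ _))
  rw [show (fun i => ∫⁻ x, f i x ∂μ) = _ from funext fun i => lintegral_congr_ae (m i).ae_eq_mk]
  exact k.trans_eq (lintegral_congr_ae (e.mono fun x hx =>
    congrArg (limsup · atTop) (funext fun i => (hx i).symm)))

theorem nq_c {n : ℕ} {M : Mf n} {H : M.Fam (Mat n)} {V : M.Fam (E n)} (hH : M.Ten H)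
    (hV : M.Vec V) : M.Sm fun x => nq (M.ev H x) (M.ev V x) := by
  refine Inv.sm (Φ := fun e z => nq (H e z) (V e z)) (fun e he e' he' x hx hx' => ?_)
    fun e he z hz => ?_
  · beta_reduce
    rw [hH.cmp e he e' he' x hx hx', ← hV.cmp e he e' he' x hx hx']
    simp only [nq, Matrix.star_mulVec, ← Matrix.mulVec_mulVec, Matrix.dotProduct_mulVec,
      Matrix.vecMul_vecMul]
  · have v := fun i => contDiffAt_pi.1 (hV.sm e he z hz) i
    simp only [nq, dotProduct, Matrix.mulVec, Pi.star_apply]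
    exact reCLM.contDiff.contDiffAt.comp z (ContDiffAt.sum fun i _ =>
      (conjCLE.contDiff.contDiffAt.comp z (v i)).mul
        (ContDiffAt.sum fun j _ => (hH.sm e he z hz i j).mul (v j)))

end LIM

theorem bLIM (hDUA : St_DUA) (hKIT : St_KIT) : St_LIM := by
  intro n M _ H O K ε f β Γ V hH hO hK hKO hD hε hL hV hb
  obtain ⟨A, -, hA⟩ := hDUA n M H O K hH hO hK hKO
  obtain ⟨k1, -, k3, -, k5, -⟩ := hKIT n M H O hH.toMet hO.1
  obtain ⟨d1, d2, -⟩ := k3 K V hK hV
  obtain ⟨C, hC⟩ := k5 f hL K hK hKO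
  obtain ⟨-, fin, -, -, int, -⟩ := mMU n M H hH.toMet
  obtain ⟨D, -, hd⟩ := d1.exists_bound
  have q0 : ∀ x, 0 ≤ nq (M.ev H x) (M.ev V x) := fun x =>
    (Complex.nonneg_iff.1 ((hH.toMet.ev_pos x).posSemidef.dotProduct_mulVec_nonneg _)).1
  set Q := ∫ x, nq (M.ev H x) (M.ev V x) * Real.exp C ∂M.mu H with hQ
  have q1 : ∀ i, ∫ x, nq (M.ev H x) (M.ev V x) * Real.exp (f i x) ∂M.mu H ≤ Q := fun i => by
    refine integral_mono_of_nonneg (.of_forall fun x => mul_nonneg (q0 x) (Real.exp_pos _).le)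
      ((int ℝ _ (LIM.nq_c hH.toTen hV.vec).continuous).mul_const _) (.of_forall fun x => ?_)
    by_cases hx : x ∈ K
    · exact mul_le_mul_of_nonneg_left (Real.exp_le_exp.2 (hC x hx i)) (q0 x)
    · have : M.ev V x = 0 := AllOn.ch hV.supp x (by rwa [ch_symm])
      simp [this, nq]
  set a : ℕ → ℝ≥0∞ := fun i => ∫⁻ x in O, ENNReal.ofReal (normSq (dg M H V x) * Real.exp (f i x))
    ∂M.mu H with ha
  set B : ℕ → ℝ≥0∞ := fun i => Jo M H O fun x => β i x * Real.exp (-f i x) with hB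
  set δ : ℕ → ℝ≥0∞ := fun i => ENNReal.ofReal (ε i * |A| * Q + 1 / ((i : ℝ) + 1)) with hδ
  have δ0 : Tendsto δ atTop (𝓝 0) := by
    have := ENNReal.tendsto_ofReal
      (((hε.mul_const |A|).mul_const Q).add (tendsto_one_div_add_atTop_nhds_zero_nat (𝕜 := ℝ)))
    simpa only [zero_mul, add_zero, ENNReal.ofReal_zero] using this
  have Q0 : 0 ≤ Q := integral_nonneg fun x => mul_nonneg (q0 x) (Real.exp_pos _).le
  have bd : ∀ i x, ENNReal.ofReal (normSq (dg M H V x) * Real.exp (f i x)) ≤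
      ENNReal.ofReal (D ^ 2 * Real.exp C) := fun i x => by
    by_cases hx : x ∈ K
    · refine ENNReal.ofReal_le_ofReal (mul_le_mul ?_ (Real.exp_le_exp.2 (hC x hx i))
        (Real.exp_pos _).le (sq_nonneg _))
      rw [normSq_eq_norm_sq]
      exact pow_le_pow_left₀ (norm_nonneg _) (hd x) 2
    · simp [d2 x hx]
  have a1 : limsup a atTop ≤
      ∫⁻ x in O, ENNReal.ofReal (normSq (dg M H V x)) * (lden f x)⁻¹ ∂M.mu H := by
    refine (LIM.fat ENNReal.ofReal_ne_top (fun i => ?_) bd).trans_eq (lintegral_congr fun x => ?_)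
    · exact (((continuous_normSq.comp d1.continuous).continuousOn.mul
        (k1 ℝ _ (hD i).sf).1.rexp).aemeasurable hO.1.measurableSet).ennreal_ofReal
    · rw [lden, ENNReal.inv_liminf, ← ENNReal.limsup_const_mul_of_ne_top ENNReal.ofReal_ne_top]
      refine congrArg (limsup · atTop) (funext fun i => ?_)
      rw [ENNReal.ofReal_mul (normSq_nonneg _), ← ENNReal.ofReal_inv_of_pos (Real.exp_pos _),
        Real.exp_neg, inv_inv]
  have a2 : limsup a atTop ≠ ⊤ := by
    refine ne_top_of_le_ne_top (b := ENNReal.ofReal (D ^ 2 * Real.exp C) * M.mu H univ)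
      (ENNReal.mul_ne_top ENNReal.ofReal_ne_top (measure_ne_top _ _))
      (limsup_le_of_le (h := .of_forall fun i => ?_))
    exact (setLIntegral_le_lintegral _ _).trans
      ((lintegral_mono (bd i)).trans_eq (lintegral_const _))
  have key : ∀ i, ENNReal.ofReal (normSq (∫ x in O, dg M H V x * star (Γ x) ∂M.mu H)) ≤
      ((a + δ) * B) i := fun i => by
    have e0 := (hD i).e0
    have p : 0 < ε i * |A| * Q + 1 / ((i : ℝ) + 1) := by positivity
    rw [Pi.mul_apply, Pi.add_apply]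
    by_cases h : B i = ⊤
    · rw [h, ENNReal.mul_top (fun k => (ENNReal.ofReal_pos.2 p).ne' (add_eq_zero.1 k).2)]
      exact le_top
    rw [setIntegral_eq_integral_of_forall_compl_eq_zero fun x hx => by
      rw [d2 x fun k => hx (hKO k), zero_mul]]
    refine (ENNReal.ofReal_le_ofReal (hA _ _ _ _ _ (hD i) hV h)).trans ?_
    rw [ENNReal.ofReal_mul ENNReal.toReal_nonneg, ENNReal.ofReal_toReal h, mul_comm]
    refine mul_le_mul_left (ENNReal.ofReal_add_le.trans (add_le_add ?_ ?_)) _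
    · refine (LIM.of_le _ fun x => mul_nonneg (normSq_nonneg _) (Real.exp_pos _).le).trans_eq
        (setLIntegral_eq_of_support_subset fun x hx => ?_).symm
      by_contra k
      exact hx (by simp [d2 x fun k' => k (hKO k')])
    · refine ENNReal.ofReal_le_ofReal (le_add_of_le_of_nonneg (mul_le_mul
        (mul_le_mul_of_nonneg_left (le_abs_self A) e0) (q1 i) (integral_nonneg fun x =>
          mul_nonneg (q0 x) (Real.exp_pos _).le) (by positivity)) (by positivity))
  have l := ENNReal.limsup_add_of_right_tendsto_zero δ0 a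
  refine (le_liminf_of_le (h := .of_forall key)).trans
    ((ENNReal.liminf_mul_le (.inr hb) (.inl (l ▸ a2))).trans ?_)
  rw [l, mul_comm]
  exact mul_le_mul_right a1 _

end Pool.Agent.Lib.KH
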