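import Pool.Agent.Lib.KH.Blue

/-! Project kh: the regularised maximum. -/

open scoped Topology ContDiff ComplexOrder Matrix
open Set Complex Filter

noncomputable section

namespace Pool.Agent.Lib.KH

open Pool.Agent.Lib.SV (E)
open Pool.Agent.Lib.HS32

namespace MAX

variable {n : ℕ} {u w : E n → ℝ} {z : E n}

/-- The Levi form. -/
def lw (u : E n → ℝ) (z v : E n) : ℝ := nq (hess (fun x => (u x : ℂ)) z) v

/-- The derivative of type `(1,0)`. -/
def dw (u : E n → ℝ) (z v : E n) : ℂ := ∑ j, dz j (fun x => (u x : ℂ)) z * v j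

theorem q_add (A B : Mat n) (v : E n) : nq (A + B) v = nq A v + nq B v := by
  simp [nq, Matrix.add_mulVec]

theorem q_smul (c : ℝ) (A : Mat n) (v : E n) : nq ((c : ℂ) • A) v = c * nq A v := by
  simp [nq, Matrix.smul_mulVec]

theorem q_dd (hu : ContDiffAt ℝ ∞ u z) (v : E n) :
    nq (dd (fun x => (u x : ℂ)) (fun x => (u x : ℂ)) z) v = normSq (dw u z v) := by
  have h := fun j : Fin n => star_dz_ofReal (j := j) (cd_diff (cd_ofReal hu))
  have : star v ⬝ᵥ dd (fun x => (u x : ℂ)) (fun x => (u x : ℂ)) z *ᵥ v =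
      star (dw u z v) * dw u z v := by
    simp only [dw, dotProduct, Matrix.mulVec, dd_apply, star_sum, star_mul', h, Pi.star_apply,
      Finset.sum_mul, Finset.mul_sum]
    rw [Finset.sum_comm]
    exact Finset.sum_congr rfl fun i _ => Finset.sum_congr rfl fun j _ => by ring
  rw [nq, this, star_def, ← normSq_eq_conj_mul_self, ofReal_re]

theorem exp_rule (hu : ContDiffAt ℝ ∞ u z) (e : ∀ x, w x = Real.exp (u x)) (v : E n) :
    lw w z v = Real.exp (u z) * (lw u z v + normSq (dw u z v)) ∧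
      dw w z v = Real.exp (u z) * dw u z v := by
  obtain rfl : w = fun x => Real.exp (u x) := funext e
  constructor
  · rw [lw, BLAP.hess_comp hu fun _ => Real.contDiff_exp.contDiffAt, q_add,
      Real.deriv_exp, Real.deriv_exp, q_smul, q_smul, q_dd hu, mul_add, lw]
  · simp only [dw, Finset.mul_sum,
      dz_comp_real (Real.hasDerivAt_exp (u z)) (hu.differentiableAt (by simp)), mul_assoc]

theorem sum_rule {ι : Type} (s : Finset ι) {f : ι → E n → ℝ} (hf : ∀ i, ContDiffAt ℝ ∞ (f i) z)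
    (v : E n) : lw (fun x => ∑ i ∈ s, f i x) z v = ∑ i ∈ s, lw (f i) z v ∧
      dw (fun x => ∑ i ∈ s, f i x) z v = ∑ i ∈ s, dw (f i) z v := by
  classical
  induction s using Finset.induction_on with
  | empty => simp [lw, dw, nq]
  | insert a s ha ih =>
    have h1 : ContDiffAt ℝ ∞ (fun x => ∑ i ∈ s, f i x) z := ContDiffAt.sum fun i _ => hf i
    simp only [Finset.sum_insert ha, ← ih.1, ← ih.2]
    constructor
    · simp only [lw, ofReal_add, hess_add (cd_ofReal (hf a)) (cd_ofReal h1), q_add]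
    · simp only [dw, ofReal_add, dz_add (cd_diff (cd_ofReal (hf a))) (cd_diff (cd_ofReal h1)),
        add_mul, Finset.sum_add_distrib]

theorem mul_rule (c : ℝ) (hu : ContDiffAt ℝ ∞ u z) (v : E n) :
    lw (fun x => c * u x) z v = c * lw u z v := by
  simp only [lw, ofReal_mul, hess_const_mul _ (cd_ofReal hu), q_smul]

theorem cvx {ι : Type} [Fintype ι] (a : ι → ℝ) (x : ι → ℂ) (t : ℂ) (ha : ∀ i, 0 ≤ a i)
    (h : ((∑ i, a i : ℝ) : ℂ) * t = ∑ i, a i * x i) :
    (∑ i, a i) * normSq t ≤ ∑ i, a i * normSq (x i) := by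
  have h1 : 0 ≤ ∑ i, a i * normSq (x i - t) :=
    Finset.sum_nonneg fun i _ => mul_nonneg (ha i) (normSq_nonneg _)
  have h2 := congrArg (fun y => (y * (starRingEnd ℂ) t).re) h
  simp only [mul_assoc, mul_conj, re_ofReal_mul, ofReal_re, Finset.sum_mul, re_sum] at h2
  simp only [normSq_sub, mul_sub, mul_add, Finset.sum_sub_distrib, Finset.sum_add_distrib,
    mul_left_comm _ (2 : ℝ), ← Finset.mul_sum, ← h2] at h1
  rw [Finset.sum_mul]
  linarith

theorem lse {ι : Type} [Fintype ι] [Nonempty ι] {f : ι → E n → ℝ} {τ : ℝ}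
    (hf : ∀ i, ContDiffAt ℝ ∞ (f i) z) (v : E n) (h : ∀ i, 0 ≤ lw (f i) z v + τ) :
    ContDiffAt ℝ ∞ (fun x => Real.log (∑ i, Real.exp (f i x))) z ∧
      0 ≤ lw (fun x => Real.log (∑ i, Real.exp (f i x))) z v + τ := by
  have hS (x) : 0 < ∑ i, Real.exp (f i x) :=
    Finset.sum_pos (fun i _ => Real.exp_pos _) Finset.univ_nonempty
  have hL : ContDiffAt ℝ ∞ (fun x => Real.log (∑ i, Real.exp (f i x))) z :=
    (ContDiffAt.sum fun i _ => (hf i).exp).log (hS z).ne'
  obtain ⟨r1, r2⟩ := exp_rule hL (fun x => (Real.exp_log (hS x)).symm) v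
  obtain ⟨s1, s2⟩ := sum_rule Finset.univ (fun i => (hf i).exp) v
  have t := fun i => exp_rule (hf i) (fun _ => rfl) v
  rw [Real.exp_log (hS z)] at r1 r2
  rw [r1, Finset.sum_congr rfl fun i _ => (t i).1] at s1
  rw [r2, Finset.sum_congr rfl fun i _ => (t i).2] at s2
  have c := cvx _ _ _ (fun i => (Real.exp_pos (f i z)).le) s2
  have d : 0 ≤ ∑ i, Real.exp (f i z) * (lw (f i) z v + τ) :=
    Finset.sum_nonneg fun i _ => mul_nonneg (Real.exp_pos _).le (h i)
  simp only [mul_add, Finset.sum_add_distrib, ← Finset.sum_mul] at s1 d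
  refine ⟨hL, le_of_mul_le_mul_left ?_ (hS z)⟩
  rw [mul_add]
  linarith

theorem psd {A : Mat n} (h : A.IsHermitian) (h0 : ∀ v, 0 ≤ nq A v) : A.PosSemidef := by
  refine Matrix.PosSemidef.of_dotProduct_mulVec_nonneg h fun v =>
    Complex.nonneg_iff.2 ⟨h0 v, ?_⟩
  have h1 : star (star v ⬝ᵥ A *ᵥ v) = star v ⬝ᵥ A *ᵥ v := by
    rw [← Matrix.star_dotProduct, Matrix.star_mulVec, h.eq, ← Matrix.dotProduct_mulVec]
  exact (Complex.conj_eq_iff_im.1 h1).symm

end MAX

open MAX in
theorem bMAX : St_MAX := by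
  intro n M O T m ρ η _ hη h
  have hm : (0 : ℝ) < m + 1 := by positivity
  obtain ⟨N, N0, hN⟩ : ∃ N : ℝ, 0 < N ∧ Real.log (m + 1) ≤ N * η :=
    ⟨(m + 1) / η, div_pos hm hη, by
      rw [div_mul_cancel₀ _ hη.ne']
      exact (Real.log_le_sub_one_of_pos hm).trans (by linarith)⟩
  have key (e) (he : e ∈ M.C) (z) (hz : z ∈ e.target) (ho : e.symm z ∈ O) (v : E n) :=
    lse (f := fun i y => N * ρ i (e.symm y)) (τ := N * nq (T e z) v)
      (fun i => contDiffAt_const.mul ((h i).1 e he z hz ho)) v fun i => by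
        rw [mul_rule N (u := fun y => ρ i (e.symm y)) ((h i).1 e he z hz ho), ← mul_add]
        refine mul_nonneg N0.le ?_
        rw [lw, ← q_add]
        exact (Complex.nonneg_iff.1 (((h i).2 e he z hz ho).dotProduct_mulVec_nonneg v)).1
  have sm : SmK M O fun x => N⁻¹ * Real.log (∑ i, Real.exp (N * ρ i x)) := fun e he z hz ho =>
    contDiffAt_const.mul (key e he z hz ho 0).1
  refine ⟨_, sm, fun e he z hz ho => psd ((hess_herm (sm e he z hz ho)).add ?_) fun v => ?_,
    fun x => ⟨fun i => ?_, ?_⟩⟩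
  · have := ((h 0).2 e he z hz ho).1.sub (hess_herm ((h 0).1 e he z hz ho))
    rwa [show M.hs (ρ 0) e z + T e z - hess (fun w => ((ρ 0 ∘ e.symm) w : ℂ)) z = T e z from
      add_sub_cancel_left _ _] at this
  · obtain ⟨k1, k2⟩ := key e he z hz ho v
    have k3 := mul_nonneg (inv_pos.2 N0).le k2
    rw [mul_add, inv_mul_cancel_left₀ N0.ne', ← mul_rule _ k1] at k3
    rw [q_add]
    exact k3
  · rw [le_inv_mul_iff₀ N0, Real.le_log_iff_exp_le
      (Finset.sum_pos (fun i _ => Real.exp_pos _) Finset.univ_nonempty)]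
    exact Finset.single_le_sum (f := fun i => Real.exp (N * ρ i x))
      (fun i _ => (Real.exp_pos _).le) (Finset.mem_univ i)
  · obtain ⟨i, hi⟩ := Finite.exists_max fun i => ρ i x
    refine ⟨i, ?_⟩
    rw [inv_mul_le_iff₀ N0, Real.log_le_iff_le_exp
      (Finset.sum_pos (fun i _ => Real.exp_pos _) Finset.univ_nonempty)]
    refine (Finset.sum_le_card_nsmul _ _ (Real.exp (N * ρ i x)) fun j _ =>
      Real.exp_le_exp.2 (mul_le_mul_of_nonneg_left (hi j) N0.le)).trans ?_
    rw [Finset.card_univ, Fintype.card_fin, nsmul_eq_mul, mul_add, Real.exp_add, mul_comm]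
    refine mul_le_mul_of_nonneg_left ?_ (Real.exp_pos _).le
    rw [← Real.log_le_iff_le_exp (by positivity)]
    exact_mod_cast hN

end Pool.Agent.Lib.KH
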