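import Pool.Agent.Lib.KH.Blue

/-! Project kh: the complement of the zeros is approximately complete. -/

open scoped Classical Topology ContDiff ComplexOrder Matrix
open Set Complex Filter

noncomputable section

namespace Pool.Agent.Lib.KH

open Pool.Agent.Lib.SV (E)
open Pool.Agent.Lib.HS32 Pool.Agent.Lib.HS32.Mf

namespace MET

variable {n : ℕ}

theorem rk1 {G : Mat n} {a : E n} {c : ℝ} (hG : G.PosDef) (c0 : 0 ≤ c)
    (h : (G - c • Matrix.vecMulVec (star a) a).PosSemidef) :
    c * (G⁻¹ * Matrix.vecMulVec (star a) a).trace.re ≤ 1 := by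
  have k := (Complex.nonneg_iff.1 (h.dotProduct_mulVec_nonneg (G⁻¹ *ᵥ star a))).1
  rw [Matrix.sub_mulVec, Matrix.mulVec_mulVec, Matrix.mul_nonsing_inv _
    ((Matrix.isUnit_iff_isUnit_det _).1 hG.isUnit), Matrix.one_mulVec, Matrix.smul_mulVec,
    Matrix.vecMulVec_mulVec, op_smul_eq_smul, dotProduct_sub, dotProduct_smul, dotProduct_smul,
    Matrix.star_dotProduct_star] at k
  rw [Matrix.mul_vecMulVec, Matrix.trace_vecMulVec, dotProduct_comm]
  generalize a ⬝ᵥ G⁻¹ *ᵥ star a = s at k
  simp only [smul_eq_mul, real_smul, sub_re, ofReal_re, ofReal_im, zero_mul, mul_re, star_def,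
    conj_re, conj_im] at k
  by_contra! h1
  have : 0 < s.re := by
    by_contra! h2
    linarith [mul_nonpos_of_nonneg_of_nonpos c0 h2]
  nlinarith [mul_nonneg c0 (mul_self_nonneg s.im), mul_lt_mul_of_pos_right h1 this]

theorem ds_eq {M : Mf n} {f : M.X → ℝ} (hf : M.Sm f) : M.All fun e z => M.ds f f e z =
    Matrix.vecMulVec (star fun j => dz j (M.lc f e) z) fun j => dz j (M.lc f e) z :=
    fun e he z hz => by
  ext i j
  have b := star_dz_ofReal (j := i) (u := fun w => f (e.symm w)) (cd_diff (hf.lc e he z hz))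
  change dzb i (fun w => (f (e.symm w) : ℂ)) z * _ = star (dz i (fun w => (f (e.symm w) : ℂ)) z) * _
  rw [b]

theorem cut (P : ℝ) : ∃ B : ℝ, ∀ t ≤ P, deriv (fun t => Real.smoothTransition (t + 2)) t = 0 ∨
    -2 ≤ t ∧ deriv (fun t => Real.smoothTransition (t + 2)) t ^ 2 ≤ B := by
  have h : ContDiff ℝ 1 fun t : ℝ => Real.smoothTransition (t + 2) :=
    Real.smoothTransition.contDiff.comp (contDiff_id.add contDiff_const)
  obtain ⟨B, hB⟩ := (isCompact_Icc (a := (-2 : ℝ)) (b := P)).bddAbove_image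
    ((h.continuous_deriv le_rfl).pow 2).continuousOn
  refine ⟨B, fun t ht => (lt_or_ge t (-2)).imp (fun k => ?_) fun k => ⟨k, hB ⟨t, ⟨k, ht⟩, rfl⟩⟩⟩
  have : (fun t => Real.smoothTransition (t + 2)) =ᶠ[𝓝 t] fun _ => 0 :=
    (eventually_lt_nhds k).mono fun s hs => Real.smoothTransition.zero_of_nonpos (by linarith)
  rw [this.deriv_eq, deriv_const]

end MET

open MET in
theorem bMET : St_MET := by
  intro n M _ H p hH hp
  have pc := hp.sm.continuous
  refine ⟨isOpen_ne_fun pc continuous_const, fun K hK KO => ?_⟩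
  obtain ⟨m, m0, hm⟩ := hK.exists_forall_le' pc.continuousOn (a := 0)
    fun x hx => (hp.nn x).lt_of_ne' (KO hx)
  obtain ⟨P, P0, hP⟩ := hp.sm.exists_bound
  obtain ⟨C', hC⟩ := hp.cur
  obtain ⟨C₁, C1, h1, -⟩ := (mBD n M H hH.toMet).1 _ ((mHES n M).1 p hp.sm).toForm
  obtain ⟨B, hB⟩ := cut P
  obtain ⟨C, c1, c2⟩ : ∃ C : ℝ, 1 ≤ C ∧ C' ≤ C := ⟨_, le_max_left _ _, le_max_right _ _⟩
  refine ⟨1 + C₁ / m, by positivity, fun η η0 => ?_⟩
  obtain ⟨δ, δ0, hδ⟩ : ∃ δ : ℝ, 0 < δ ∧ δ * Real.exp P * C = 1 / 2 :=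
    ⟨(2 * C * Real.exp P)⁻¹, by positivity, by field_simp⟩
  obtain ⟨l, l1, l2, l3⟩ : ∃ l : ℝ, 1 ≤ l ∧ -l ≤ Real.log m ∧
      |B| ≤ η ^ 2 * (δ * l * Real.exp (-2)) := by
    have k : 0 ≤ |B| / (η ^ 2 * (δ * Real.exp (-2))) := by positivity
    refine ⟨1 + |Real.log m| + |B| / (η ^ 2 * (δ * Real.exp (-2))), by
      linarith [abs_nonneg (Real.log m)], by linarith [neg_abs_le (Real.log m)], ?_⟩
    have : η ^ 2 * (δ * (1 + |Real.log m| + |B| / (η ^ 2 * (δ * Real.exp (-2)))) * Real.exp (-2)) =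
        |B| + η ^ 2 * (δ * (1 + |Real.log m|) * Real.exp (-2)) := by field_simp; ring
    rw [this]
    exact le_add_of_nonneg_right (by positivity)
  have l0 : 0 < l := by linarith
  obtain ⟨d, d0, d1, d2⟩ : ∃ d : ℝ, 0 < d ∧ d ≤ 1 ∧ 2 * d = Real.exp (-2 * l) :=
    ⟨Real.exp (-2 * l) / 2, by positivity, by
      linarith [Real.exp_le_one_iff.2 (show -2 * l ≤ 0 by linarith)], by ring⟩
  have q0 : ∀ x, 0 < p x + d := fun x => by linarith [hp.nn x]
  have su : M.Sm fun x => Real.log (p x + d) := (hp.sm.add (sm_const d)).log fun x => (q0 x).ne'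
  set y : M.X → ℝ := fun x => l⁻¹ * Real.log (p x + d) with hy
  have sy : M.Sm y := su.const_mul _
  have ly : ∀ x, l * y x = Real.log (p x + d) := fun x => mul_inv_cancel_left₀ l0.ne' _
  have yP : ∀ x, y x ≤ P := fun x => by
    have := Real.log_le_sub_one_of_pos (q0 x)
    have := (le_abs_self _).trans (hP x)
    nlinarith [ly x]
  have a1 : ∀ x, δ * Real.exp (y x) * C ≤ 1 / 2 := fun x => by
    rw [← hδ]
    gcongr
    exact yP x
  have a0 : ∀ x, 0 < δ * Real.exp (y x) := fun x => by positivity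
  set G := H + (δ * l) • M.hs fun x => Real.exp (y x) with hG
  have D0 : M.All fun e z => (M.ds y y e z).PosSemidef := fun e he z hz => by
    simpa using ((mHES n M).2.2.1 y sy).2 e he z hz
  have H0 : M.All fun e z => (H e z).PosSemidef := fun e he z hz => (hH.pos e he z hz).posSemidef
  have e1 : M.All fun e z => G e z = H e z + (δ * Real.exp (y (e.symm z)) * l) •
      (M.hs y e z + M.ds y y e z) := fun e he z hz => by
    have := (((mLAP n M y y sy sy).2.1 Real.exp fun _ => Real.contDiff_exp.contDiffAt).2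
      e he z hz).1
    simp only [Real.deriv_exp] at this
    simp only [hG, Pi.add_apply, Pi.smul_apply, this]
    module
  have e2 : M.All fun e z => (C • H e z + l • M.hs y e z).PosSemidef := fun e he z hz => by
    have k := ((mLAP n M _ _ su su).1 l⁻¹ e he z hz).2.2.2.1
    have := (hC d ⟨d0, d1⟩ e he z hz).add ((H0 e he z hz).smul (sub_nonneg.2 c2))
    beta_reduce
    rw [hy, k, smul_inv_smul₀ l0.ne']
    refine (congrArg Matrix.PosSemidef ?_).mp this
    simp only [Pi.add_apply, Pi.smul_apply, Pi.zero_apply]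
    module
  have e3 : M.All fun e z => M.hs p e z = (l * (p (e.symm z) + d)) • M.hs y e z +
      (l * (l * (p (e.symm z) + d))) • M.ds y y e z := fun e he z hz => by
    have k : ∀ t, HasDerivAt (fun t => Real.exp (l * t)) (l * Real.exp (l * t)) t := fun t => by
      simpa [mul_comm] using ((hasDerivAt_id t).const_mul l).exp
    have k1 : deriv (fun t => Real.exp (l * t)) = fun t => l * Real.exp (l * t) :=
      funext fun t => (k t).deriv
    have := (((mLAP n M y y sy sy).2.1 (fun t => Real.exp (l * t)) fun _ => by fun_prop).2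
      e he z hz).1
    rw [k1, ((k _).const_mul l).deriv] at this
    simp only [ly, Real.exp_log (q0 _)] at this
    have k2 := (mLAP n M p _ hp.sm (sm_const d)).1 d e he z hz
    beta_reduce
    rw [← this, k2.2.1, k2.1, add_zero]
  have e4 : ∀ s c : ℝ, s ≤ 1 / 2 → M.All fun e z => c ≤ δ * Real.exp (y (e.symm z)) * l →
      (G e z - s • H e z - c • M.ds y y e z).PosSemidef := fun s c hs e he z hz hc => by
    have := (((H0 e he z hz).smul (show 0 ≤ 1 - s - δ * Real.exp (y (e.symm z)) * C by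
      linarith [a1 (e.symm z)])).add ((e2 e he z hz).smul (a0 (e.symm z)).le)).add
      ((D0 e he z hz).smul (sub_nonneg.2 hc))
    refine (congrArg Matrix.PosSemidef ?_).mp this
    rw [e1 e he z hz]
    module
  have e5 : M.All fun e z => (G e z - (1 / 2 : ℝ) • H e z).PosSemidef := fun e he z hz => by
    simpa only [zero_smul, sub_zero] using e4 _ 0 le_rfl e he z hz (mul_pos (a0 _) l0).le
  have kG : M.Kae G := ⟨hH.toClo.add (((mHES n M).1 _ sy.exp).smul _), fun e he z hz => by
    simpa only [add_sub_cancel] using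
      ((hH.pos e he z hz).smul (show (0 : ℝ) < 1 / 2 by norm_num)).add_posSemidef (e5 e he z hz)⟩
  have sψ : ∀ t, ContDiffAt ℝ ∞ (fun t : ℝ => Real.smoothTransition (t + 2)) t := fun t =>
    (Real.smoothTransition.contDiff.comp (contDiff_id.add contDiff_const)).contDiffAt
  have sκ : M.Sm fun x => Real.smoothTransition (y x + 2) :=
    sy.comp (φ := fun t => Real.smoothTransition (t + 2)) fun x => sψ (y x)
  refine ⟨G, fun x => Real.smoothTransition (y x + 2), kG, fun e he z hz => ?_,
    fun e he z hz hx => ?_, sκ, fun x => ⟨Real.smoothTransition.nonneg _,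
      Real.smoothTransition.le_one _⟩, fun x hx => Real.smoothTransition.one_of_one_le ?_,
    (closure_minimal (t := {x | d ≤ p x}) (fun x hx => ?_)
      (isClosed_le continuous_const pc)).trans fun x hx => (d0.trans_le hx).ne', fun x => ?_⟩
  · refine (congrArg Matrix.PosSemidef ?_).mp ((e5 e he z hz).smul (zero_le_two (α := ℝ)))
    simp only [Pi.smul_apply]
    module
  · have q := q0 (e.symm z)
    have a := a0 (e.symm z)
    have b : δ * Real.exp (y (e.symm z)) / (p (e.symm z) + d) * C₁ ≤ C₁ / m := by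
      rw [div_mul_eq_mul_div]
      exact div_le_div₀ C1.le (by nlinarith [a1 (e.symm z)]) m0 (by linarith [hm _ hx])
    have := (((H0 e he z hz).smul (sub_nonneg.2 b)).add ((h1 e he z hz).smul
      (div_pos a q).le)).add ((D0 e he z hz).smul (mul_nonneg (mul_pos a l0).le (sub_nonneg.2 l1)))
    refine (congrArg Matrix.PosSemidef ?_).mp this
    simp only [Pi.smul_apply]
    rw [e1 e he z hz, e3 e he z hz]
    match_scalars <;> field_simp <;> ring
  · have := Real.log_le_log m0 (show m ≤ p x + d by linarith [hm x hx])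
    nlinarith [ly x]
  · have k : -2 < y x := by
      by_contra! k
      exact hx (Real.smoothTransition.zero_of_nonpos (by linarith))
    have : -2 * l < Real.log (p x + d) := by nlinarith [ly x]
    rw [Real.lt_log_iff_exp_lt (q0 x)] at this
    change d ≤ p x
    linarith
  · have k1 := (((mLAP n M y _ sy sκ).2.2 G kG.toMet).2.2.2.1 _ (fun x => sψ _) x).2
    have k2 := (((mLAP n M y _ sy sy).2.2 G kG.toMet).2.2.2.1 _ (fun x => sψ _) x).2
    have k3 := (((mLAP n M y _ sy sκ).2.2 G kG.toMet).2.2.1 x 0).2.2.2.2.2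
    rw [k1, k3.1, k2, ← mul_assoc, ← sq]
    rcases hB _ (yP x) with k | ⟨k, k'⟩
    · rw [k, zero_pow two_ne_zero, zero_mul]
      positivity
    obtain ⟨t1, t2⟩ := (mTR n M).1 x
    have t3 := (M.ch x).map_source t2
    have c0 : 0 < δ * l * Real.exp (-2) := by positivity
    have r := e4 0 (δ * l * Real.exp (-2)) (by norm_num) _ t1 _ t3 (by
      rw [(M.ch x).left_inv t2, mul_right_comm]
      gcongr)
    rw [zero_smul, sub_zero, ds_eq sy _ t1 _ t3] at r
    have r2 := rk1 (kG.pos _ t1 _ t3) c0.le r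
    rw [← ds_eq sy _ t1 _ t3] at r2
    change _ * M.gr G y y x ≤ 1 at r2
    nlinarith [mul_le_mul_of_nonneg_right ((k'.trans (le_abs_self B)).trans l3) k3.2.1,
      mul_le_mul_of_nonneg_left r2 (sq_nonneg η)]

end Pool.Agent.Lib.KH
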