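import Pool.Agent.Lib.KH.Blue
import Pool.Agent.Lib.EXH.B_QLO

/-! Project kh, row QLN: the gradient term of a closed field times a function. -/

open scoped Classical Topology ContDiff ComplexOrder Matrix
open Set Complex Filter Matrix

noncomputable section

namespace Pool.Agent.Lib.KH

open Pool.Agent.Lib.SV (E)
open Pool.Agent.Lib.HS32 Pool.Agent.Lib.EXH

namespace QLN

variable {n : ℕ}

/-- The pairing of two matrices. -/
def bl (S T : Mat n) : ℂ := ∑ k, ∑ l, S k l * star (T l k)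

theorem bl_add (S S' T : Mat n) : bl (S + S') T = bl S T + bl S' T := by
  simp only [bl, Matrix.add_apply, add_mul, Finset.sum_add_distrib]

theorem bl_add' (S T T' : Mat n) : bl S (T + T') = bl S T + bl S T' := by
  simp only [bl, Matrix.add_apply, star_add, mul_add, Finset.sum_add_distrib]

theorem bl_re (S T : Mat n) : (bl S T).re = (bl T S).re := by
  simp only [bl, re_sum]
  rw [Finset.sum_comm]
  refine Finset.sum_congr rfl fun _ _ => Finset.sum_congr rfl fun _ _ => ?_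
  simp [mul_comm]

theorem bl_one (S : Mat n) (x y : E n) : bl S (vecMulVec x y) = star y ⬝ᵥ S *ᵥ star x := by
  simp only [bl, vecMulVec_apply, dotProduct, mulVec, Finset.mul_sum, star_mul', Pi.star_apply]
  exact Finset.sum_congr rfl fun _ _ => Finset.sum_congr rfl fun _ _ => by ring

theorem key {G Y : Mat n} (hG : G.PosDef) (hs : (G * Y).IsSymm) (v a : E n) :
    -((star a ⬝ᵥ G⁻¹ *ᵥ a).re * nq G v) ≤ (bl (Y + vecMulVec v a) (Y + vecMulVec v a)).re := by
  have u := Ne.isUnit hG.det_pos.ne'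
  have e1 : G *ᵥ G⁻¹ *ᵥ a = a := by rw [mulVec_mulVec, mul_nonsing_inv _ u, one_mulVec]
  have e2 : ∀ x y : E n, star (G *ᵥ x) ⬝ᵥ y = star x ⬝ᵥ G *ᵥ y := fun x y => by
    rw [star_mulVec, hG.1.eq, dotProduct_mulVec]
  have e3 : ∀ x y : E n, x ⬝ᵥ G *ᵥ Y *ᵥ y = y ⬝ᵥ G *ᵥ Y *ᵥ x := fun x y => by
    rw [mulVec_mulVec, mulVec_mulVec, dotProduct_mulVec, ← mulVec_transpose, hs.eq, dotProduct_comm]
  have h0 := (nonneg_iff.1 (hG.inv.posSemidef.dotProduct_mulVec_nonneg a))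
  have h1 := (nonneg_iff.1 (hG.posSemidef.dotProduct_mulVec_nonneg v))
  generalize G⁻¹ *ᵥ a = p at e1 h0 ⊢
  subst e1
  have h2 : 0 ≤ bl (Y + (vecMulVec ((2⁻¹ : ℂ) • v) (G *ᵥ p) + vecMulVec ((2⁻¹ : ℂ) • p) (G *ᵥ v)))
      (Y + (vecMulVec ((2⁻¹ : ℂ) • v) (G *ᵥ p) + vecMulVec ((2⁻¹ : ℂ) • p) (G *ᵥ v))) :=
    HS68.symm_trace_nonneg hG (by
      rw [mul_add, mul_add, mul_vecMulVec, mul_vecMulVec]
      refine hs.add (IsSymm.ext fun i j => ?_)
      simp only [Matrix.add_apply, vecMulVec_apply, mulVec_smul, Pi.smul_apply, smul_eq_mul]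
      ring)
  replace h2 := (nonneg_iff.1 h2).1
  have e4 : star v ⬝ᵥ G *ᵥ p = star (star p ⬝ᵥ G *ᵥ v) := by rw [star_dotProduct, e2]
  simp only [bl_add, bl_add', add_re, bl_re (vecMulVec _ _) Y] at h2 ⊢
  simp only [bl_one, e2, vecMulVec_mulVec, star_smul, mulVec_smul, dotProduct_smul,
    dotProduct_comm (G *ᵥ _) (star _), op_smul_eq_smul, smul_eq_mul,
    e3 (star v) (star p), e4, nq] at h0 h1 h2 ⊢
  generalize star p ⬝ᵥ G *ᵥ v = c at h2 ⊢
  simp only [star_inv₀, star_ofNat, mul_re, mul_im, inv_re, inv_im, star_def, conj_re, conj_im,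
    ← h0.2, ← h1.2, re_ofNat, im_ofNat, normSq_ofNat] at h2 ⊢
  nlinarith [mul_nonneg h0.1 h1.1, sq_nonneg c.re, sq_nonneg c.im]

end QLN

theorem bQLN : St_QLN := by
  intro n M G L φ v κ hG hv hc hκ x
  have he := Mf.ch_mem x
  have hz := Mf.ch_tgt x
  have l := HS68.met_loc hG.toMet he hz
  have hk := cd_diff (hκ.lc _ he _ hz)
  have hW := hv.sm _ he _ hz
  have s := QLO.symm l (hG.cl _ he _ hz) hW (hc _ he _ hz)
  have k := QLN.key l.pos (Y := M.lc κ (M.ch x) (M.ch x x) • _) (by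
    rw [Matrix.mul_smul]; exact s.smul _) (M.ev v x)
    fun i => dzb i (M.lc κ (M.ch x)) (M.ch x x)
  rw [tv, qv, ← mul_assoc, ← neg_mul]
  refine mul_le_mul_of_nonneg_right (le_of_eq_of_le ?_ (k.trans_eq ?_)) (Real.exp_pos _).le
  · have e : M.ev (M.ds κ κ) x = vecMulVec (fun i => dzb i (M.lc κ (M.ch x)) (M.ch x x))
        (star fun i => dzb i (M.lc κ (M.ch x)) (M.ch x x)) := by
      ext i j
      exact congrArg (_ * ·) (star_dzb_ofReal hk).symm
    rw [Mf.gr, Mf.tr, e, mul_vecMulVec, trace_vecMulVec, dotProduct_comm]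
    rfl
  · have e : ∀ i j, dzb j (fun w => fm M κ v (M.ch x) w i) (M.ch x x) =
        M.lc κ (M.ch x) (M.ch x x) * dzb j (fun w => v (M.ch x) w i) (M.ch x x) +
          M.ev v x i * dzb j (M.lc κ (M.ch x)) (M.ch x x) := fun i j =>
      (dzb_mul hk (cd_diff (contDiffAt_pi.1 hW i))).trans (by rw [add_comm, mul_comm (dzb _ _ _)]; rfl)
    simp only [Mf.ev, qL, e]
    rfl

end Pool.Agent.Lib.KH
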