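import Pool.Agent.Lib.KH.Blue
import Pool.Agent.Lib.SV.H_RIE

/-! The theorem of Riesz with a weight. -/

open scoped Classical Topology ENNReal
open Set MeasureTheory Complex Filter

noncomputable section

namespace Pool.Agent.Lib.KH

theorem bRIE : St_RIE := by
  intro Y S _ _ _ μ a T l B hB ha ha0 hT
  let w : Y → ℂ := fun y => (Real.sqrt (a y)⁻¹.toReal : ℝ)
  have hwm : AEMeasurable w μ :=
    Complex.measurable_ofReal.comp_aemeasurable
      (Real.continuous_sqrt.measurable.comp_aemeasurable ha.inv.ennreal_toReal)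
  have hw2 : ∀ᵐ y ∂μ, ∀ c : ℂ, ENNReal.ofReal (‖c * w y‖ ^ 2) =
      ENNReal.ofReal (normSq c) * (a y)⁻¹ := by
    filter_upwards [ha0] with y hy c
    simp only [w, norm_mul, mul_pow, norm_real, Real.norm_eq_abs, sq_abs]
    rw [Real.sq_sqrt ENNReal.toReal_nonneg, ENNReal.ofReal_mul (by positivity),
      ENNReal.ofReal_toReal (ENNReal.inv_ne_top.2 hy), Complex.sq_norm]
  have hm : ∀ s, AEStronglyMeasurable (fun y => T s y * w y) μ := fun s =>
    ((hT s).1.mul hwm).aestronglyMeasurable
  have he : ∀ s, ∫⁻ y, ENNReal.ofReal (‖T s y * w y‖ ^ 2) ∂μ =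
      ∫⁻ y, ENNReal.ofReal (normSq (T s y)) * (a y)⁻¹ ∂μ := fun s =>
    lintegral_congr_ae (by filter_upwards [hw2] with y hy using hy _)
  have hL : ∀ s, MemLp (fun y => T s y * w y) 2 μ := fun s => by
    rw [memLp_two_iff_integrable_sq_norm (hm s)]
    exact (lintegral_ofReal_ne_top_iff_integrable (f := fun y => ‖T s y * w y‖ ^ 2)
      ((hm s).norm.pow 2) (Eventually.of_forall fun _ => by positivity)).1
      ((he s).trans_ne (hT s).2.1)
  let A : S →ₗ[ℂ] Lp ℂ 2 μ :=
    { toFun := fun s => (hL s).toLp _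
      map_add' := fun s t => by
        rw [← MemLp.toLp_add]
        apply MemLp.toLp_congr
        refine Eventually.of_forall fun y => ?_
        simp only [map_add, Pi.add_apply, add_mul]
      map_smul' := fun c s => by
        rw [RingHom.id_apply, ← MemLp.toLp_const_smul]
        apply MemLp.toLp_congr
        refine Eventually.of_forall fun y => ?_
        simp only [map_smul, Pi.smul_apply, smul_eq_mul, mul_assoc] }
  have hA : ∀ s, A s =ᵐ[μ] fun y => T s y * w y := fun s => MemLp.coeFn_toLp (hL s)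
  obtain ⟨u, hu, hlu⟩ := SV.RIE.riesz A l (Real.sqrt B.toReal) (Real.sqrt_nonneg _) fun s => by
    have h1 := (hT s).2.2
    have h2 : ∫⁻ y, ENNReal.ofReal (normSq (T s y)) * (a y)⁻¹ ∂μ = ENNReal.ofReal (‖A s‖ ^ 2) := by
      rw [SV.RIE.norm_sq, ← he]
      refine lintegral_congr_ae ?_
      filter_upwards [hA s] with y hy
      rw [hy]
    rw [h2, ← ENNReal.ofReal_toReal hB, ← ENNReal.ofReal_mul ENNReal.toReal_nonneg,
      ENNReal.ofReal_le_ofReal_iff (by positivity), ← Complex.sq_norm] at h1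
    refine abs_le_of_sq_le_sq' ?_ (by positivity) |>.2
    rw [mul_pow, Real.sq_sqrt ENNReal.toReal_nonneg]
    exact h1
  refine ⟨fun y => u y * w y, (Lp.aestronglyMeasurable u).aemeasurable.mul hwm, ?_, fun s => ?_⟩
  · calc ∫⁻ y, ENNReal.ofReal (normSq (u y * w y)) * a y ∂μ
        ≤ ∫⁻ y, ENNReal.ofReal (‖u y‖ ^ 2) ∂μ := by
          refine lintegral_mono_ae ?_
          filter_upwards [hw2] with y hy
          rw [← Complex.sq_norm, hy, mul_assoc, Complex.sq_norm]
          exact mul_le_of_le_one_right' (ENNReal.inv_mul_le_one _)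
      _ = ENNReal.ofReal (‖u‖ ^ 2) := (SV.RIE.norm_sq u).symm
      _ ≤ ENNReal.ofReal B.toReal := by
          refine ENNReal.ofReal_le_ofReal ?_
          calc ‖u‖ ^ 2 ≤ Real.sqrt B.toReal ^ 2 := by gcongr
            _ = B.toReal := Real.sq_sqrt ENNReal.toReal_nonneg
      _ = B := ENNReal.ofReal_toReal hB
  · have e : (fun y => inner ℂ (u y) (A s y)) =ᵐ[μ] fun y => T s y * star (u y * w y) := by
      filter_upwards [hA s] with y hy
      rw [hy]
      simp only [RCLike.inner_apply, w, star_mul', RCLike.star_def, conj_ofReal]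
      ring
    exact ⟨(L2.integrable_inner u (A s)).congr e, by
      rw [hlu, L2.inner_def]
      exact integral_congr_ae e⟩

end Pool.Agent.Lib.KH
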