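import Pool.Agent.Lib.KH.Blue

/-! Project kh, row TOP: the theorem from the dual estimate, Riesz and Weyl. -/

open scoped Classical Topology ContDiff ComplexOrder Matrix ENNReal
open Set MeasureTheory Complex Metric Filter

set_option linter.unusedVariables false

noncomputable section

namespace Pool.Agent.Lib.KH

open Pool.Agent.Lib.SV (E)
open Pool.Agent.Lib.HS32 Pool.Agent.Lib.KP Pool.Agent.Lib.EXH

namespace TOP

theorem lden_ge {Y : Type} (f : ℕ → Y → ℝ) (x : Y) (C : ℝ) (h : ∀ i, f i x ≤ C) :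
    ENNReal.ofReal (Real.exp (-C)) ≤ lden f x :=
  le_liminf_of_le (by isBoundedDefault) (Eventually.of_forall fun i =>
    ENNReal.ofReal_le_ofReal (Real.exp_le_exp.2 (neg_le_neg (h i))))

theorem lden_meas {Y : Type} [MeasurableSpace Y] (μ : Measure Y) (f : ℕ → Y → ℝ)
    (h : ∀ i, AEMeasurable (f i) μ) : AEMeasurable (lden f) μ := by
  have e : lden f = fun x => ⨆ m : ℕ, ⨅ i : ℕ, ENNReal.ofReal (Real.exp (-f (i + m) x)) := by
    funext x
    exact liminf_eq_iSup_iInf_of_nat'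
  rw [e]
  exact AEMeasurable.iSup fun m => AEMeasurable.iInf fun i =>
    (Real.measurable_exp.comp_aemeasurable (h _).neg).ennreal_ofReal

theorem intg {Y : Type} [MeasurableSpace Y] (μ : Measure Y) [IsFiniteMeasure μ] (h : Y → ℂ)
    (a : Y → ℝ≥0∞) (c : ℝ≥0∞) (hc : c ≠ 0) (hc' : c ≠ ⊤) (hm : AEMeasurable h μ)
    (ha : ∀ᵐ y ∂μ, c ≤ a y) (hf : ∫⁻ y, ENNReal.ofReal (normSq (h y)) * a y ∂μ ≠ ⊤) :
    Integrable h μ := by
  refine ⟨hm.aestronglyMeasurable, ?_⟩
  have h1 : ∫⁻ y, ‖h y‖ₑ ∂μ ≤ ∫⁻ y, 1 + c⁻¹ * (ENNReal.ofReal (normSq (h y)) * a y) ∂μ := by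
    refine lintegral_mono_ae (ha.mono fun y hy => ?_)
    have h2 : ‖h y‖ₑ ≤ 1 + ENNReal.ofReal (normSq (h y)) := by
      rw [← ofReal_norm, ← ENNReal.ofReal_one,
        ← ENNReal.ofReal_add zero_le_one (normSq_nonneg _)]
      refine ENNReal.ofReal_le_ofReal ?_
      rw [Complex.normSq_eq_norm_sq]
      nlinarith [sq_nonneg (‖h y‖ - 1), norm_nonneg (h y)]
    refine h2.trans (add_le_add le_rfl ?_)
    calc ENNReal.ofReal (normSq (h y)) = c⁻¹ * (ENNReal.ofReal (normSq (h y)) * c) := by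
          rw [mul_comm (ENNReal.ofReal _) c, ← mul_assoc, ENNReal.inv_mul_cancel hc hc', one_mul]
      _ ≤ _ := by gcongr
  rw [lintegral_add_left measurable_const, lintegral_const_mul' _ _ (ENNReal.inv_ne_top.2 hc),
    lintegral_const, one_mul] at h1
  exact h1.trans_lt (ENNReal.add_lt_top.2 ⟨measure_lt_top _ _,
    ENNReal.mul_lt_top (ENNReal.inv_lt_top.2 (pos_iff_ne_zero.2 hc)) hf.lt_top⟩)

variable {n : ℕ} (M : Mf n)

theorem tf0 (K : Set M.X) : Tf M K 0 :=
  ⟨⟨fun _ _ _ _ => contDiffAt_const, fun _ _ _ _ _ _ _ => Matrix.mulVec_zero _⟩,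
    fun _ _ _ _ _ => rfl⟩

/-- The fields with compact support in `O`. -/
def sub (O : Set M.X) (h : ∀ K K' V V' (c : ℂ), Tf M K V → Tf M K' V' →
    Tf M (K ∪ K') (V + V') ∧ Tf M K (c • V)) : Submodule ℂ (M.Fam (E n)) where
  carrier := {V | ∃ K, IsCompact K ∧ K ⊆ O ∧ Tf M K V}
  zero_mem' := ⟨∅, isCompact_empty, empty_subset _, tf0 M _⟩
  add_mem' := by
    rintro V V' ⟨K, hK, hO, hV⟩ ⟨K', hK', hO', hV'⟩
    exact ⟨K ∪ K', hK.union hK', union_subset hO hO', (h K K' V V' 0 hV hV').1⟩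
  smul_mem' := by
    rintro c V ⟨K, hK, hO, hV⟩
    exact ⟨K, hK, hO, (h K K V V c hV hV).2⟩

end TOP

theorem bTOP (hKIT : St_KIT) (hLIM : St_LIM) (hRIE : St_RIE) (hWEY : St_WEY) : St_KH := by
  intro n M _ H O ε f β Γ hH hO hD hε hL
  set B := liminf (fun i => Jo M H O fun x => β i x * Real.exp (-f i x)) atTop with hB
  by_cases hBt : B = ⊤
  · exact ⟨fun _ => 0, fun _ _ _ _ _ => Eventually.of_forall fun _ => differentiableAt_const _,
      hBt ▸ le_top⟩
  have hOm : MeasurableSet O := hO.1.measurableSet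
  obtain ⟨k1, -, k3, k4, k5, -⟩ := hKIT n M H O hH.toMet hO.1
  have : IsFiniteMeasure (M.mu H) := (mMU n M H hH.toMet).2.1
  have : SecondCountableTopology M.X := (mCOV n M).1
  have cΓ : ContinuousOn Γ O := (k1 ℂ Γ (hD 0).sg).1
  have cd : ∀ K V, IsCompact K → Tf M K V → Continuous (dg M H V) := fun K V hK hV =>
    ((mTR n M).2.2.2.1 ℂ _).1 (k3 K V hK hV).1
  have iΓ : ∀ K V, IsCompact K → K ⊆ O → Tf M K V →
      Integrable (fun x => dg M H V x * star (Γ x)) ((M.mu H).restrict O) := by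
    intro K V hK hKO hV
    have h1 : IntegrableOn (fun x => dg M H V x * star (Γ x)) K (M.mu H) :=
      ContinuousOn.integrableOn_compact hK
        ((cd K V hK hV).continuousOn.mul (cΓ.mono hKO).star)
    exact h1.of_forall_sdiff_eq_zero hOm fun x hx => by rw [(k3 K V hK hV).2.1 x hx.2, zero_mul]
  let S := TOP.sub M O fun K K' V V' c h h' => ⟨(k4 K K' V V' c h h').1, (k4 K K' V V' c h h').2.1⟩
  let T : S →ₗ[ℂ] M.X → ℂ :=
    { toFun := fun s => dg M H s.1
      map_add' := by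
        rintro ⟨V, K, hK, hKO, hV⟩ ⟨V', K', hK', hKO', hV'⟩
        exact (k4 K K' V V' 0 hV hV').2.2.1
      map_smul' := by
        rintro c ⟨V, K, hK, hKO, hV⟩
        exact (k4 K K V V c hV hV).2.2.2 }
  let l : S →ₗ[ℂ] ℂ :=
    { toFun := fun s => ∫ x in O, T s x * star (Γ x) ∂M.mu H
      map_add' := by
        intro s s'
        obtain ⟨K, hK, hKO, hV⟩ := s.2
        obtain ⟨K', hK', hKO', hV'⟩ := s'.2
        rw [map_add]
        simp only [Pi.add_apply, add_mul]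
        exact integral_add (iΓ K _ hK hKO hV) (iΓ K' _ hK' hKO' hV')
      map_smul' := by
        intro c s
        rw [map_smul]
        simp only [Pi.smul_apply, smul_eq_mul, mul_assoc, RingHom.id_apply]
        exact integral_const_mul _ _ }
  have ma : AEMeasurable (lden f) ((M.mu H).restrict O) :=
    TOP.lden_meas _ f fun i => (k1 ℝ (f i) (hD i).sf).1.aemeasurable hOm
  have c0 : ∀ C : ℝ, ENNReal.ofReal (Real.exp (-C)) ≠ 0 := fun C =>
    (ENNReal.ofReal_pos.2 (Real.exp_pos _)).ne'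
  obtain ⟨h, hm, hb, hs⟩ := hRIE M.X S ((M.mu H).restrict O) (lden f) T l B hBt ma
    ((ae_restrict_iff' hOm).2 (Eventually.of_forall fun x hx => by
      obtain ⟨C, hC⟩ := hL x hx
      exact ((pos_iff_ne_zero.2 (c0 C)).trans_le (TOP.lden_ge f x C hC.self_of_nhds)).ne'))
    (by
      intro s
      obtain ⟨K, hK, hKO, hV⟩ := s.2
      refine ⟨(cd K _ hK hV).aemeasurable, ?_, hLIM n M H O K ε f β Γ s.1 hH hO hK hKO hD hε hL hV hBt⟩
      obtain ⟨C, hC⟩ := k5 f hL K hK hKO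
      obtain ⟨D, hDd⟩ := (isCompact_univ.image_of_continuousOn
        (continuous_normSq.comp (cd K _ hK hV)).continuousOn).bddAbove
      refine ne_top_of_le_ne_top (b := ∫⁻ _ in O,
        ENNReal.ofReal D * (ENNReal.ofReal (Real.exp (-C)))⁻¹ ∂M.mu H) ?_ (lintegral_mono fun x => ?_)
      · rw [lintegral_const]
        exact ENNReal.mul_ne_top (ENNReal.mul_ne_top ENNReal.ofReal_ne_top
          (ENNReal.inv_ne_top.2 (c0 C))) (measure_ne_top _ _)
      · by_cases hx : x ∈ K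
        · exact mul_le_mul' (ENNReal.ofReal_le_ofReal (hDd ⟨x, mem_univ _, rfl⟩))
            (ENNReal.inv_le_inv.2 (TOP.lden_ge f x C (hC x hx)))
        · have e : T s x = 0 := (k3 K _ hK hV).2.1 x hx
          simp only [e, map_zero, ENNReal.ofReal_zero, zero_mul, zero_le])
  have lh : LocallyIntegrableOn h O (M.mu H) := by
    intro x hx
    obtain ⟨C, hC⟩ := hL x hx
    obtain ⟨U, hU, hUo, hxU⟩ := eventually_nhds_iff.1 hC
    refine ⟨U ∩ O, mem_nhdsWithin_of_mem_nhds ((hUo.inter hO.1).mem_nhds ⟨hxU, hx⟩), ?_⟩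
    have hle : (M.mu H).restrict (U ∩ O) ≤ (M.mu H).restrict O :=
      Measure.restrict_mono inter_subset_right le_rfl
    exact TOP.intg _ h (lden f) _ (c0 C) ENNReal.ofReal_ne_top (hm.mono_measure hle)
      ((ae_restrict_iff' (hUo.inter hO.1).measurableSet).2 (Eventually.of_forall fun y hy =>
        TOP.lden_ge f y C (hU y hy.1)))
      (ne_top_of_le_ne_top hBt ((lintegral_mono' hle le_rfl).trans hb))
  obtain ⟨F, hF, hFe⟩ := hWEY n M H O (fun x => Γ x - h x) hH.toMet hO.1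
    ((cΓ.locallyIntegrableOn hOm).sub lh) (by
      intro K V hK hKO hV
      obtain ⟨i1, e1⟩ := hs ⟨V, K, hK, hKO, hV⟩
      simp only [star_sub, mul_sub]
      exact (integral_sub (iΓ K V hK hKO hV) i1).trans (sub_eq_zero.2 e1))
  refine ⟨F, hF, le_trans (le_of_eq (lintegral_congr_ae (hFe.mono fun x hx => ?_))) hb⟩
  simp only [hx, sub_sub_cancel]

end Pool.Agent.Lib.KH
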