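import Pool.Agent.Lib.KH.Blue
import Pool.Agent.Lib.HS32.MAll

/-! Project kh, row WEY. -/

open scoped Classical Topology ContDiff ComplexOrder Matrix ENNReal
open Set MeasureTheory Complex Metric Filter

noncomputable section

namespace Pool.Agent.Lib.KH

open Pool.Agent.Lib.SV (E)
open Pool.Agent.Lib.HS32 Pool.Agent.Lib.KP Pool.Agent.Lib.EXH

namespace WEY

variable {n : ℕ} {M : Mf n} [M.Cpt] {e : M.Ch}

theorem vec (he : e ∈ M.C) {K : Set (E n)} {g : E n → E n} (hK : IsCompact K) (hs : K ⊆ e.target)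
    (h1 : ∀ z ∈ e.target, ContDiffAt ℝ ∞ g z) (h0 : ∀ z ∈ e.target, z ∉ K → g z = 0) :
    ∃ V, Tf M (e.symm '' K) V ∧ ∀ z ∈ e.target, V e z = g z := by
  have hu := (mCOV n M).2.2.2.1 _ e he K g hK hs h1 h0
  have tr := (mTR n M).2.1
  have z0 : ∀ x ∉ e.symm '' K, (e.source.indicator fun x => g (e x)) x = 0 := fun x hx =>
    indicator_apply_eq_zero.2 fun h => h0 _ (e.map_source h) fun k => hx ⟨_, k, e.left_inv h⟩
  refine ⟨fun c z => M.J c e (c.symm z) *ᵥ (e.source.indicator fun x => g (e x)) (c.symm z),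
    ⟨⟨fun c hc z hz => ?_, fun c hc c' hc' x hx hx' => ?_⟩, fun c _ z _ h => ?_⟩, fun z hz => ?_⟩
  · by_cases h : c.symm z ∈ e.source
    · have a := (tr e he c hc _ h (c.map_target hz)).1
      have b := (tr c hc e he _ (c.map_target hz) h).1
      rw [c.right_inv hz] at a
      exact (SmM.comp (T := jm (c ∘ e.symm)) (ψ := e ∘ c.symm) (mCHN n _ _ b).2.1
        (mCHN n _ _ a).1).mulVec (hu c hc z hz)
    · have k := (hK.image_of_continuousOn (e.continuousOn_symm.mono hs)).isClosed.isOpen_compl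
      refine (contDiffAt_const (c := (0 : E n))).congr_of_eventuallyEq ?_
      filter_upwards [(c.continuousAt_symm hz).preimage_mem_nhds (k.mem_nhds
        fun ⟨w, hw, q⟩ => h (q ▸ e.map_target (hs hw)))] with w hw
      rw [z0 _ hw, Matrix.mulVec_zero]
  · beta_reduce
    rw [c.left_inv hx, c'.left_inv hx']
    by_cases h : x ∈ e.source
    · rw [Matrix.mulVec_mulVec, ← (tr c hc c' hc' x hx hx').2.2.2.2 e he h]
    · simp only [indicator_of_notMem h, Matrix.mulVec_zero]
  · rw [z0 _ h, Matrix.mulVec_zero]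
  · beta_reduce
    rw [(mTR n M).2.2.1 e he _ (e.map_target hz), Matrix.one_mulVec,
      indicator_of_mem (e.map_target hz), e.right_inv hz]

theorem loc (hWE0 : St_WE0) (hKIT : St_KIT) {H : M.Fam (Mat n)} {O : Set M.X} {g : M.X → ℂ}
    (hH : M.Met H) (hO : IsOpen O) (hg : LocallyIntegrableOn g O (M.mu H))
    (h : ∀ K V, IsCompact K → K ⊆ O → Tf M K V → ∫ x in O, dg M H V x * star (g x) ∂M.mu H = 0)
    {y : M.X} (hy : y ∈ O) : ∃ (V : Set M.X) (F : M.X → ℂ), IsOpen V ∧ y ∈ V ∧
      ContinuousOn F V ∧ (∀ x ∈ V, ∃ e ∈ M.C, x ∈ e.source ∧ HolN (F ∘ e.symm) (e x)) ∧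
      M.mu H {x | x ∈ V ∧ F x ≠ g x} = 0 := by
  obtain ⟨N, n1, n2⟩ := hg y hy
  rw [hO.nhdsWithin_eq hy] at n1
  obtain ⟨e, he, hs⟩ := M.cov y
  obtain ⟨mu, -, -, -, -, hc, -⟩ := mMU n M H hH
  have ht := e.map_source hs
  have p0 := (BMU.pos hH he ht).1
  obtain ⟨R, R0, hR⟩ := Metric.eventually_nhds_iff_ball.1
    ((e.open_target.eventually_mem ht).and (((e.continuousAt_symm ht).eventually_mem
      (by rw [e.left_inv hs]; exact inter_mem n1 (hO.mem_nhds hy))).and
      (((BMU.cont hH.toTen he).continuousAt (e.open_target.mem_nhds ht)).eventually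
        (lt_mem_nhds (half_lt_self p0)))))
  have c0 := half_pos p0
  generalize (H e (e y)).det.re / 2 = c at hR c0
  obtain ⟨r, rfl⟩ : ∃ r, R = 4 * r := ⟨R / 4, by ring⟩
  have r0 : 0 < r := by linarith
  have hB : ball (e y) (4 * r) ⊆ e.target := fun z hz => (hR z hz).1
  have mB : MeasurableSet (ball (e y) (4 * r)) := measurableSet_ball
  have i1 : IntegrableOn g (e.symm '' ball (e y) (4 * r)) (M.mu H) :=
    n2.mono_set fun _ ⟨z, hz, q⟩ => q ▸ (hR z hz).2.1.1
  rw [IntegrableOn, BMU.res mu he mB hB] at i1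
  have i2 := i1.comp_aemeasurable (by
    rw [← BMU.res_tgt H e hB]
    exact e.continuousOn_symm.aemeasurable (BMU.tgt e))
  obtain ⟨F, f1, f2⟩ := hWE0 n (g ∘ e.symm) (e y) r r0
    (i2.of_measure_le_smul (c := ENNReal.ofReal c⁻¹) ENNReal.ofReal_ne_top (by
      rw [← withDensity_smul' _ _ ENNReal.ofReal_ne_top]
      refine (withDensity_one (μ := volume.restrict (ball (e y) (4 * r)))).symm.trans_le
        (withDensity_mono ((ae_restrict_mem mB).mono fun z hz => ?_))
      change 1 ≤ ENNReal.ofReal c⁻¹ * ENNReal.ofReal _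
      rw [← ENNReal.ofReal_mul (inv_pos.2 c0).le, ENNReal.one_le_ofReal, le_inv_mul_iff₀ c0, mul_one]
      exact (hR z hz).2.2.le))
    fun ψ h1 h2 h3 j => by
      obtain ⟨V, v1, v2⟩ := vec he (g := fun z => ((H e z).det)⁻¹ • Pi.single j (ψ z)) h2
        (h3.trans hB) (fun z hz => ((hH.sm e he z hz).det.inv (hH.det_ne e he z hz)).smul
          (contDiffAt_pi.2 fun i => by
            simp only [Pi.single_apply]
            split_ifs
            · exact h1.contDiffAt
            · exact contDiffAt_const))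
        fun z _ hz => by rw [image_eq_zero_of_notMem_tsupport hz, Pi.single_zero, smul_zero]
      have hK := h2.isCompact.image_of_continuousOn (e.continuousOn_symm.mono (h3.trans hB))
      obtain ⟨-, k2, k3⟩ := (hKIT n M H O hH hO).2.2.1 _ V hK v1
      have k4 := h _ V hK (fun _ ⟨z, hz, q⟩ => q ▸ (hR z (h3 hz)).2.1.2) v1
      rw [setIntegral_eq_integral_of_forall_compl_eq_zero fun x hx => by
        rw [k2 x fun ⟨z, hz, q⟩ => hx (q ▸ (hR z (h3 hz)).2.1.2), zero_mul],
        (hc e he _ mB hB).2.2.2.2.2 _ fun x hx => by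
          rw [k2 x fun k => hx (image_mono h3 k), zero_mul]] at k4
      refine (setIntegral_congr_fun mB fun z hz => ?_).trans k4
      have k5 : (fun w => (H e w).det • V e w) =ᶠ[𝓝 z] fun w => Pi.single j (ψ w) := by
        filter_upwards [e.open_target.mem_nhds (hB hz)] with w hw
        rw [v2 w hw, smul_inv_smul₀ (hH.det_ne e he w hw)]
      rw [← mul_assoc, mul_comm (H e z).det, k3 e he z (hB hz), dv, Finset.sum_eq_single j
        (fun i _ hi => (dz_congr (k5.mono fun w hw => (congrFun hw i).trans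
          (Pi.single_eq_of_ne hi _))).trans (dz_const 0)) fun k => absurd (Finset.mem_univ j) k,
        dz_congr (k5.mono fun w hw => (congrFun hw j).trans (Pi.single_eq_same j _))]
      rfl
  have hb : ball (e y) r ⊆ e.target := (ball_subset_ball (by linarith)).trans hB
  refine ⟨e.source ∩ e ⁻¹' ball (e y) r, F ∘ e, e.isOpen_inter_preimage isOpen_ball,
    ⟨hs, mem_ball_self r0⟩, f1.continuousOn.comp (e.continuousOn.mono inter_subset_left)
      fun x hx => hx.2, fun x hx => ⟨e, he, hx.1, ?_⟩, ?_⟩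
  · filter_upwards [isOpen_ball.eventually_mem hx.2] with z hz
    refine (f1.differentiableAt (isOpen_ball.mem_nhds hz)).congr_of_eventuallyEq ?_
    filter_upwards [e.eventually_right_inverse (hb hz)] with w hw
    exact congrArg F hw
  · obtain ⟨A, a1, a2, a3⟩ := exists_measurable_superset_of_null (ae_iff.1 f2)
    refine measure_mono_null (t := e.symm '' (A ∩ ball (e y) r)) (fun x hx =>
      ⟨e x, ⟨a1 fun k => hx.2 ((k hx.1.2).trans (congrArg g (e.left_inv hx.1.1))), hx.1.2⟩,
        e.left_inv hx.1.1⟩) ?_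
    rw [BMU.val hH.toTen mu he (a2.inter measurableSet_ball) (inter_subset_right.trans hb)]
    exact setLIntegral_measure_zero _ _ (measure_mono_null inter_subset_left a3)

end WEY

theorem bWEY (hWE0 : St_WE0) (hKIT : St_KIT) : St_WEY := by
  intro n M _ H O g hH hO hg h
  have := (mCOV n M).1
  have := (mMU n M H hH).2.2.1
  choose! V F v1 v2 hc hol hae using fun y (hy : y ∈ O) => WEY.loc hWE0 hKIT hH hO hg h hy
  have key : ∀ y ∈ O, ∀ x ∈ O, x ∈ V y → F x x = F y x := fun y hy x hx' hx => by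
    have ho : IsOpen ((V x ∩ V y) ∩ (fun z => F x z - F y z) ⁻¹' {0}ᶜ) :=
      (((hc x hx').mono inter_subset_left).sub
        ((hc y hy).mono inter_subset_right)).isOpen_inter_preimage
        ((v1 x hx').inter (v1 y hy)) isOpen_compl_singleton
    have h0 := (ho.measure_eq_zero_iff (M.mu H)).1 (measure_mono_null (fun z hz => by
      by_contra hn
      simp only [mem_union, mem_ofPred_eq, not_or, not_and, not_not] at hn
      exact hz.2 (sub_eq_zero.2 ((hn.1 hz.1.1).trans (hn.2 hz.1.2).symm)))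
      (measure_union_null (hae x hx') (hae y hy)))
    by_contra hn
    exact (eq_empty_iff_forall_notMem.1 h0 x) ⟨⟨v2 x hx', hx⟩, sub_ne_zero.2 hn⟩
  refine ⟨fun y => F y y, Mf.allOn_of_source fun e he y hy ho => ?_, ?_⟩
  · rw [e.left_inv hy] at ho
    obtain ⟨c, c1, c2, c3⟩ := hol y ho y (v2 y ho)
    obtain ⟨t1, -, -, t2, -⟩ := (mTR n M).2.1 c c1 e he y c2 hy
    have t3 : Tendsto (c ∘ e.symm) (𝓝 (e y)) (𝓝 (c y)) := by
      simpa only [Function.comp_apply, e.left_inv hy] using t1.self_of_nhds.continuousAt.tendsto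
    have t4 : F y ∘ c.symm ∘ c ∘ e.symm =ᶠ[𝓝 (e y)] (fun y => F y y) ∘ e.symm := by
      filter_upwards [t2, (e.continuousAt_symm (e.map_source hy)).eventually_mem (by
        rw [e.left_inv hy]; exact (hO.inter (v1 y ho)).mem_nhds ⟨ho, v2 y ho⟩)] with w a b
      simp only [Function.comp_apply, c.left_inv a.2.1, key y ho _ b.1 b.2]
    filter_upwards [t1, t3.eventually c3, t4.eventuallyEq_nhds] with w a b k
    exact (b.comp w a).congr_of_eventuallyEq k.symm
  · refine (ae_restrict_iff' hO.measurableSet).2 (ae_iff.2 (measure_mono_null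
      (t := {y | y ∈ O ∧ F y y ≠ g y}) (fun y hy => by simpa using hy) ?_))
    refine measure_null_of_locally_null _ fun y hy => ⟨_, inter_mem_nhdsWithin _
      ((v1 y hy.1).mem_nhds (v2 y hy.1)), measure_mono_null (fun x hx => ?_) (hae y hy.1)⟩
    exact ⟨hx.2, by rw [← key y hy.1 x hx.1.1 hx.2]; exact hx.1.2⟩

end Pool.Agent.Lib.KH
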