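import Pool.Agent.Lib.KH.B_CHG
import Pool.Agent.Lib.KH.B_COR
import Pool.Agent.Lib.KH.B_DUA
import Pool.Agent.Lib.KH.B_KHL
import Pool.Agent.Lib.KH.B_KHM
import Pool.Agent.Lib.KH.B_KIT
import Pool.Agent.Lib.KH.B_LEI
import Pool.Agent.Lib.KH.B_LIM
import Pool.Agent.Lib.KH.B_MAX
import Pool.Agent.Lib.KH.B_MET
import Pool.Agent.Lib.KH.B_QLN
import Pool.Agent.Lib.KH.B_RIE
import Pool.Agent.Lib.KH.B_TOP
import Pool.Agent.Lib.KH.B_WE0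
import Pool.Agent.Lib.KH.B_WEY

/-! Project kh: the assembly. -/

namespace Pool.Agent.Lib.KH

theorem aKH : St_KH := bTOP bKIT (bLIM (bDUA (bCOR bQLN bLEI) bKIT bCHG) bKIT) bRIE (bWEY bWE0 bKIT)

theorem aKHM : St_KHM := bKHM aKH bKIT

theorem aKHL : St_KHL := bKHL aKH bMAX bKIT

end Pool.Agent.Lib.KH
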