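import Pool.Agent.Lib.KH.Blue

/-! Project kh: the change of the metric and of the weight. -/

open scoped Classical Topology ContDiff ComplexOrder Matrix ENNReal
open Set MeasureTheory Complex Metric Filter

noncomputable section

namespace Pool.Agent.Lib.KH

open Pool.Agent.Lib.SV (E)
open Pool.Agent.Lib.HS32 Pool.Agent.Lib.KP Pool.Agent.Lib.EXH Pool.Agent.Lib.KP.T60

namespace CHG

variable {n : ℕ} {M : Mf n}

theorem wt {u : M.X → ℝ} (hu : M.Sm u) : M.WtC (tri M) fun e z => u (e.symm z) :=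
  ⟨hu, fun e _ e' _ x hx hx' => by
    simp only [e.left_inv hx, e'.left_inv hx', tri, map_one, Real.log_one, add_zero]⟩

theorem nq_c (A : Mat n) (r : ℝ) (v : E n) : nq A ((r : ℂ) • v) = r ^ 2 * nq A v := by
  simp only [nq, Matrix.mulVec_smul, star_smul, smul_dotProduct, dotProduct_smul, smul_eq_mul,
    RCLike.star_def, conj_ofReal, re_ofReal_mul, sq, mul_assoc]

end CHG

theorem bCHG : St_CHG := by
  intro n M _ H G f V Γ hH hG hf hV hΓ
  have hq := ((mINV n M H hH).2.2.2.2.2.2.2 G hG).1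
  have hl : M.Sm fun x => f x + Real.log (M.dq H G x) :=
    hf.add ((mHES n M).2.2.2.2.2.2.2.2.2 G H hG hH).1
  have w1 := CHG.wt hl
  have w0 := CHG.wt hf
  have wz : M.WtC (tri M) 0 := CHG.wt (Mf.sm_const 0)
  have e1 : ∀ x, Real.exp (-(f x + Real.log (M.dq H G x))) * M.dq H G x = Real.exp (-f x) :=
    fun x => by
      rw [neg_add, Real.exp_add, Real.exp_neg (Real.log _), Real.exp_log (hq x),
        inv_mul_cancel_right₀ (hq x).ne']
  have e2 : M.All fun e z => phC M G (fun e z => f (e.symm z) + Real.log (M.dq H G (e.symm z))) e z =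
      phC M H (fun e z => f (e.symm z)) e z := fun e he z hz => by
    have := ((mINV n M H hH).2.1 G hG.toForm e he z hz).2.2
    simp only [phC]
    rw [this, Real.log_mul (hq _).ne' (Mf.pd_det_re (hH.pos e he z hz)).ne']
    ring
  have hW : VeC M (tri M) (fm M (fun x => Real.exp (f x)) V) :=
    ⟨fun e he z hz => (cd_ofReal (hf.exp e he z hz)).smul (hV.sm e he z hz),
      fun e he e' he' x hx hx' => by
        simp only [fm, e.left_inv hx, e'.left_inv hx', tri, one_smul, Matrix.mulVec_smul,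
          hV.cmp e he e' he' x hx hx']⟩
  have e3 : ∀ t s : ℝ, ((Real.exp t : ℝ) : ℂ) * (Real.exp (-(t - s)) : ℝ) =
      (Real.exp (-(0 - s)) : ℝ) := fun t s => by
    rw [← ofReal_mul, ← Real.exp_add]
    exact congrArg (fun a => ((Real.exp a : ℝ) : ℂ)) (by ring)
  have e4 : ∀ x, M.ev (wd M G (fun e z => f (e.symm z) + Real.log (M.dq H G (e.symm z)))
      (fm M (fun x => Real.exp (f x)) V)) x = Real.exp (f x) * dg M H V x := fun x => by
    have he := Mf.ch_mem x
    have hz := Mf.ch_tgt x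
    have a1 := HS68.adj_div (phC_sm hG w1 he hz) (hW.sm _ he _ hz) (g := fun _ => 1) contDiffAt_const
    have a2 := HS68.adj_div (phC_sm hH wz he hz) (hV.sm _ he _ hz) (g := fun _ => 1) contDiffAt_const
    rw [BDIV.dv_congr (W' := fun w k => V (M.ch x) w k * star (1 : ℂ) *
      (Real.exp (-phC M H 0 (M.ch x) w) : ℝ)) (by
        filter_upwards [e2.ev he hz] with w hw
        funext k
        rw [hw]
        exact (by rw [← e3 (f ((M.ch x).symm w))]; ring : (Real.exp (f ((M.ch x).symm w)) : ℝ) *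
          V (M.ch x) w k * star (1 : ℂ) * (Real.exp (-(f ((M.ch x).symm w) - _)) : ℝ) =
          V (M.ch x) w k * star (1 : ℂ) * (Real.exp (-(0 - _)) : ℝ))), a2, e2 _ he _ hz] at a1
    simp only [dzb_const, star_zero, mul_zero, Finset.sum_const_zero, add_zero, star_one,
      mul_one] at a1
    have a3 := e3 (f ((M.ch x).symm (M.ch x x))) (Real.log (H (M.ch x) (M.ch x x)).det.re)
    refine mul_right_cancel₀ (ofReal_ne_zero.2 (Real.exp_pos
      (-phC M H (fun e z => f (e.symm z)) (M.ch x) (M.ch x x))).ne') (a1.symm.trans ?_)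
    rw [mul_comm (Real.exp (f x) : ℂ), mul_assoc]
    refine congrArg (_ * ·) (a3.symm.trans ?_)
    exact congrArg (fun y => ((Real.exp (f y) : ℝ) : ℂ) * _) (Mf.ch_symm x)
  refine ⟨_, _, fun e => Γ ∘ e.symm, w1, hW, ⟨hΓ, fun e _ e' _ x hx hx' => by
    simp only [Function.comp_apply, e.left_inv hx, e'.left_inv hx', tri, mul_one]⟩, fun _ => rfl,
    fun e he z hz => ⟨?_, e1 _⟩, fun x => ⟨e4 x, ?_⟩⟩
  · exact (hess_phC hG w1 he hz).symm.trans ((hess_congr ((e2.ev he hz).mono fun w hw =>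
      congrArg ofReal hw)).trans (hess_phC hH w0 he hz))
  have b1 : M.ev (fun e z => f (e.symm z) + Real.log (M.dq H G (e.symm z))) x =
      f x + Real.log (M.dq H G x) :=
    congrFun (Mf.ev_comp fun x => f x + Real.log (M.dq H G x)) x
  have b2 : M.ev (fun e => Γ ∘ e.symm) x = Γ x := congrFun (Mf.ev_comp Γ) x
  have b3 : M.ev (fm M (fun x => Real.exp (f x)) V) x = (Real.exp (f x) : ℂ) • M.ev V x :=
    congrArg (fun y => ((Real.exp (f y) : ℝ) : ℂ) • M.ev V x) (Mf.ch_symm x)
  have b4 : Real.exp (f x) * Real.exp (-f x) = 1 := by rw [← Real.exp_add, add_neg_cancel, Real.exp_zero]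
  have b5 := e1 x
  have b6 := congrArg ofReal b4
  have b7 := congrArg ofReal b5
  rw [ofReal_mul] at b6 b7
  rw [spC, Mf.nrC, Mf.nrC, tv, e4, b1, b2, b3, CHG.nq_c, normSq_mul, normSq_ofReal]
  refine ⟨?_, ?_, ?_, ?_⟩
  · linear_combination dg M H V x * star (Γ x) * (b6 + (Real.exp (f x) : ℂ) * b7) +
      dg M H V x * star (Γ x) * ofReal_one
  · linear_combination normSq (dg M H V x) * Real.exp (f x) * (b4 + Real.exp (f x) * b5)
  · linear_combination normSq (Γ x) * b5
  · linear_combination nq (M.ev G x) (M.ev V x) * Real.exp (f x) * (b4 + Real.exp (f x) * b5)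

end Pool.Agent.Lib.KH
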